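import Pool.Agent.Helper4.SW.Two
import Pool.Agent.Helper36.SW.S

/-!
S-world: a vertex all of whose children are bad spiders: the deletion inequality (T0) for bad
spiders, and `GoodC`.
-/

set_option autoImplicit false

namespace Pool.Agent.Helper70.SW

open Pool.Agent.Helper6.HL hiding X
open Pool.Agent.Helper4.SW
open Finset Polynomial

/-! ### two polynomial inequalities -/

theorem P0_aux {y d g : ℝ} (hy : 0 ≤ y) (hd : 0 ≤ d) (hg : 0 ≤ g) :
    (y * ((y + d + y + g) + (y + d)) ^ 2 - 2 * (y + d) * (y + d + y + g) ^ 2) *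
      ((y + d) * (y + d + y + g) + y * ((y + d + y + g) + (y + d)) + y * (y + d)) ≤
    2 * (y + d) ^ 2 * (y + d + y + g) *
      ((y + d + y + g) * ((y + d + y + g) - y) + (y + d) * ((y + d) - y)) := by
  rw [← sub_nonneg]
  have e : 2 * (y + d) ^ 2 * (y + d + y + g) *
      ((y + d + y + g) * ((y + d + y + g) - y) + (y + d) * ((y + d) - y)) -
      (y * ((y + d + y + g) + (y + d)) ^ 2 - 2 * (y + d) * (y + d + y + g) ^ 2) *
      ((y + d) * (y + d + y + g) + y * ((y + d + y + g) + (y + d)) + y * (y + d)) =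
      121*(d*g*y^3) + 62*(d*g^2*y^2) + 9*(d*g^3*y) + 54*(d*y^4) + 158*(d^2*g*y^2) +
      51*(d^2*g^2*y) + 4*(d^2*g^3) + 123*(d^2*y^3) + 80*(d^3*g*y) + 12*(d^3*g^2) +
      108*(d^3*y^2) + 14*(d^4*g) + 42*(d^4*y) + 6*d^5 + 26*(g*y^4) + 20*(g^2*y^3) +
      4*(g^3*y^2) + 2*y^5 := by ring
  rw [e]
  positivity

theorem P1_aux {y d g : ℝ} (hy : 0 ≤ y) (hd : 0 ≤ d) (hg : 0 ≤ g) :
    ((y + d + y + g) - y) * (y + d) *
      ((y * ((y + d + y + g) + (y + d)) ^ 2 - 2 * (y + d) * (y + d + y + g) ^ 2) *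
      ((y + d) * (y + d + y + g) + y * ((y + d + y + g) + (y + d)) + y * (y + d))) +
    ((y + d) - y) * (y + d + y + g) *
      ((y * ((y + d + y + g) + (y + d)) ^ 2 - 2 * (y + d) ^ 2 * (y + d + y + g)) *
      (2 * (y + d) * (y + d + y + g) + y * ((y + d + y + g) + (y + d)) - (y + d) ^ 2 +
        y * (y + d))) ≤
    (((y + d + y + g) - y) * (y + d) + ((y + d) - y) * (y + d + y + g)) *
      (2 * (y + d) ^ 2 * (y + d + y + g) *
      ((y + d + y + g) * ((y + d + y + g) - y) + (y + d) * ((y + d) - y))) := by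
  rw [← sub_nonneg]
  have e : (((y + d + y + g) - y) * (y + d) + ((y + d) - y) * (y + d + y + g)) *
      (2 * (y + d) ^ 2 * (y + d + y + g) *
      ((y + d + y + g) * ((y + d + y + g) - y) + (y + d) * ((y + d) - y))) -
      (((y + d + y + g) - y) * (y + d) *
      ((y * ((y + d + y + g) + (y + d)) ^ 2 - 2 * (y + d) * (y + d + y + g) ^ 2) *
      ((y + d) * (y + d + y + g) + y * ((y + d + y + g) + (y + d)) + y * (y + d))) +
    ((y + d) - y) * (y + d + y + g) *
      ((y * ((y + d + y + g) + (y + d)) ^ 2 - 2 * (y + d) ^ 2 * (y + d + y + g)) *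
      (2 * (y + d) * (y + d + y + g) + y * ((y + d + y + g) + (y + d)) - (y + d) ^ 2 +
        y * (y + d)))) =
      148*(d*g*y^5) + 204*(d*g^2*y^4) + 88*(d*g^3*y^3) + 12*(d*g^4*y^2) + 4*(d*y^6) +
      583*(d^2*g*y^4) + 497*(d^2*g^2*y^3) + 153*(d^2*g^3*y^2) + 15*(d^2*g^4*y) +
      180*(d^2*y^5) + 1003*(d^3*g*y^3) + 565*(d^3*g^2*y^2) + 113*(d^3*g^3*y) + 6*(d^3*g^4) +
      541*(d^3*y^4) + 796*(d^4*g*y^2) + 282*(d^4*g^2*y) + 28*(d^4*g^3) + 646*(d^4*y^3) +
      292*(d^5*g*y) + 50*(d^5*g^2) + 378*(d^5*y^2) + 40*(d^6*g) + 108*(d^6*y) + 12*d^7 +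
      28*(g*y^6) + 46*(g^2*y^5) + 24*(g^3*y^4) + 4*(g^4*y^3) + 2*y^7 := by ring
  rw [e]
  positivity

theorem P0_ineq {y s t : ℝ} (hy : 0 ≤ y) (hs : y ≤ s) (ht : s + y ≤ t) (h1 : t + s = 1) :
    (y - 2 * s * t ^ 2) * (s * t + y + y * s) ≤
      2 * s ^ 2 * t * (t * (t - y) + s * (s - y)) := by
  have h := P0_aux hy (sub_nonneg.2 hs) (sub_nonneg.2 ht)
  have e1 : y + (s - y) = s := by ring
  have e2 : s + y + (t - (s + y)) = t := by ring
  rw [e1, e2, h1, one_pow, mul_one] at h
  linarith

theorem P1_ineq {y s t : ℝ} (hy : 0 ≤ y) (hs : y ≤ s) (ht : s + y ≤ t) (h1 : t + s = 1) :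
    (t - y) * s * ((y - 2 * s * t ^ 2) * (s * t + y + y * s)) +
    (s - y) * t * ((y - 2 * s ^ 2 * t) * (2 * s * t + y - s ^ 2 + y * s)) ≤
    ((t - y) * s + (s - y) * t) * (2 * s ^ 2 * t * (t * (t - y) + s * (s - y))) := by
  have h := P1_aux hy (sub_nonneg.2 hs) (sub_nonneg.2 ht)
  have e1 : y + (s - y) = s := by ring
  have e2 : s + y + (t - (s + y)) = t := by ring
  rw [e1, e2, h1, one_pow, mul_one] at h
  linarith

variable {q : ℕ} {w : Fin q → ℝ} {y : ℝ}

/-! ### merging in the context `y Y = C`, `G = 1` -/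

theorem rest_const (h : Hyp w y) {r : ℝ} (hr : ∀ c, w c ≤ r) (a b j : ℕ) (J : List ℕ)
    (hleg : 0 ≤ E w (fun c => (w c - y) * ch w y (a + 1) c * ch w y (b + 1) c *
      (l w y (j + 1) - l w y (j + 2) - (r - w c) * hat w (psi w y (j + 1)) c))) :
    0 ≤ E w (fun c => (w c - y) * ch w y (a + 1) c * ch w y (b + 1) c *
      ((st w y (R (j :: J))).a - L w (st w y (R (j :: J))).p -
        (r - w c) * hat w (st w y (R (j :: J))).p c)) := by
  set α := (st w y (R J)).a with hα
  set π := (st w y (R J)).p with hπ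
  have hα0 : 0 ≤ α := (st_nonneg h.nn h.hy.le _).1
  have e : st w y (R (j :: J)) = ⟨l w y (j + 1) * α, psi w y (j + 1) * π⟩ := by
    have : R (j :: J) = (B.path (j + 1)).app (R J) := rfl
    rw [this, st_app]
    rfl
  rw [e]
  simp only
  have hle : ∀ k, hat w (psi w y (j + 1) * π) k ≤ α * hat w (psi w y (j + 1)) k := fun k =>
    hat_mul_le_const h (psi_NN h.nn h.hy.le _) (fun k => by linarith [R_defect h J k]) k
  have hL : L w (psi w y (j + 1) * π) ≤ α * l w y (j + 2) := by
    rw [l_succ w y (j + 1), L_def, L_def, ← E_const_mul]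
    exact E_mono h.nn hle
  refine le_trans (mul_nonneg hα0 hleg) ?_
  rw [← E_const_mul]
  refine E_mono h.nn fun c => ?_
  have hX : 0 ≤ (w c - y) * ch w y (a + 1) c * ch w y (b + 1) c :=
    mul_nonneg (mul_nonneg (sub_nonneg.2 (h.lt c).le) (ch_pos h a c).le) (ch_pos h b c).le
  have hD : α * (l w y (j + 1) - l w y (j + 2) - (r - w c) * hat w (psi w y (j + 1)) c) ≤
      l w y (j + 1) * α - L w (psi w y (j + 1) * π) -
        (r - w c) * hat w (psi w y (j + 1) * π) c := by
    have h1 := mul_le_mul_of_nonneg_left (hle c) (sub_nonneg.2 (hr c))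
    linarith
  have := mul_le_mul_of_nonneg_left hD hX
  linarith

theorem hat_one' : hat w (1 : ℝ[X]) = fun _ => 1 := hat_one w

theorem Z_one_sp (h : Hyp w y) (r : ℝ) (J : List ℕ) :
    Z w y (r / y) 1 (.cons (R J) .nil) = r * sa w y J + E w (sf w y J) := by
  rw [Z_sp, mul_div_cancel₀ _ h.hy.ne', hat_one']
  simp only [one_mul]

theorem merge_const (h : Hyp w y) {r : ℝ} (hr : ∀ c, w c ≤ r)
    (hleg : ∀ a b j : ℕ, 0 ≤ E w (fun c => (w c - y) * ch w y (a + 1) c * ch w y (b + 1) c *
      (l w y (j + 1) - l w y (j + 2) - (r - w c) * hat w (psi w y (j + 1)) c)))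
    (a b j : ℕ) (J : List ℕ) :
    r * sa w y ((a + b + 1) :: j :: J) + E w (sf w y ((a + b + 1) :: j :: J)) ≤
      r * sa w y (a :: b :: j :: J) + E w (sf w y (a :: b :: j :: J)) := by
  rw [← Z_one_sp h, ← Z_one_sp h]
  have e1 : (st w y B.nil).a = 1 := rfl
  have e2 : (st w y B.nil).p = 1 := rfl
  rw [Z_cons, Z_cons, e1, e2, mul_one, mul_one, mul_one, mul_div_cancel₀ _ h.hy.ne']
  have e3 : R (a :: b :: j :: J) = .cons (.path a) (.cons (.path b) (R (j :: J))) := rfl
  have e4 : R ((a + b + 1) :: j :: J) = .cons (.path (a + b + 1)) (R (j :: J)) := rfl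
  rw [e3, e4, Z_merge]
  refine le_add_of_nonneg_right (mul_nonneg h.hy.le ?_)
  set s := R (j :: J) with hs
  set p := (st w y s).p with hp
  refine le_trans (rest_const h hr a b j J (hleg a b j)) (le_of_eq ?_)
  congr 1
  funext c
  congr 1
  have hL1 : L w (1 : ℝ[X]) = 1 := by rw [L_def, hat_one', E_one h]
  have hsplit : hat w ((C r + Polynomial.X) * p) c = r * hat w p c + (L w p - w c * hat w p c) := by
    rw [add_mul, map_add, Pi.add_apply, hat_const_mul, hat_X_mul, K'_apply, L_def]
  rw [mul_one, hL1, one_mul, hsplit]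
  ring

theorem merge_const_all (h : Hyp w y) {r : ℝ} (hr : ∀ c, w c ≤ r)
    (hleg : ∀ a b j : ℕ, 0 ≤ E w (fun c => (w c - y) * ch w y (a + 1) c * ch w y (b + 1) c *
      (l w y (j + 1) - l w y (j + 2) - (r - w c) * hat w (psi w y (j + 1)) c)))
    (c : ℕ) (J : List ℕ) : ∀ a : ℕ,
    r * sa w y [a + J.sum + J.length, c] + E w (sf w y [a + J.sum + J.length, c]) ≤
      r * sa w y (a :: (J ++ [c])) + E w (sf w y (a :: (J ++ [c]))) := by
  induction J with
  | nil => intro a; exact le_rfl
  | cons b J ih =>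
    intro a
    refine le_trans ?_ ((ih (a + b + 1)).trans ?_)
    · rw [show a + (b :: J).sum + (b :: J).length = a + b + 1 + J.sum + J.length by
        simp only [List.sum_cons, List.length_cons]; ring]
    · cases J with
      | nil => exact merge_const h hr hleg a b c []
      | cons j J => exact merge_const h hr hleg a b j (J ++ [c])

/-- the leg inequality for `r = w t` -/
theorem leg_top (h : Hyp w y) {t : Fin q} (ht : Top w t) (a b j : ℕ) :
    0 ≤ E w (fun c => (w c - y) * ch w y (a + 1) c * ch w y (b + 1) c *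
      (l w y (j + 1) - l w y (j + 2) - (w t - w c) * hat w (psi w y (j + 1)) c)) :=
  L2_leg h ht a b j

theorem E_two {t s : Fin q} (hts : t ≠ s) (hall : ∀ j, j = t ∨ j = s)
    (f : Fin q → ℝ) : E w f = w t * f t + w s * f s := by
  have hu : (univ : Finset (Fin q)) = {t, s} := by
    ext j
    simpa using hall j
  rw [E, hu, sum_pair hts]

/-- the leg inequality for two big parts -/
theorem leg_two_parts (h : Hyp w y) {t i : Fin q} (ht : Top w t) (hti : t ≠ i)
    (hall : ∀ j, j = t ∨ j = i) {r : ℝ} (hr : r * (1 - E w w) = y) (hrt : w t ≤ r) (a b j : ℕ) :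
    0 ≤ E w (fun c => (w c - y) * ch w y (a + 1) c * ch w y (b + 1) c *
      (l w y (j + 1) - l w y (j + 2) - (r - w c) * hat w (psi w y (j + 1)) c)) := by
  have hone : w t + w i = 1 := by
    have := E_two (w := w) hti hall (fun _ => 1)
    rw [E_one h] at this
    linarith
  have hy := h.hy
  have hB := top_half h ht
  have hyi := h.lt i
  have hyt := h.lt t
  set T := w t with hT
  set s := w i with hs
  have hs0 : 0 < s := hy.trans hyi
  have hT0 : 0 < T := hy.trans hyt
  have hsT : s + y ≤ T := by linarith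
  have h1 : s = 1 - T := by linarith
  have hl2 : l w y 2 = 2 * s * T + y := by
    rw [l_two h, E_two (w := w) hti hall]
    rw [← hT, ← hs]
    have : T = 1 - s := by linarith
    rw [this]; ring
  have hr2 : r * (2 * s * T) = y := by
    rw [← hr, E_two (w := w) hti hall, ← hT, ← hs]
    have : T = 1 - s := by linarith
    rw [this]; ring
  have hr0 : 0 < r := hT0.trans_le hrt
  -- the leg
  set e := ch w y (j + 1) t with he
  have he0 : 0 < e := ch_pos h j t
  have hle : l w y (j + 1) * s ≤ e * (2 * s * T + y) := by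
    have := T2_le h ht j
    rw [← hT, ← h1, hl2] at this
    exact this
  have hei : e ≤ ch w y (j + 1) i := (Cone.ch h.nn hy.le (j + 1)).anti i t (ht i)
  set kt := kap w y (j + 1) t with hkt
  set ki := kap w y (j + 1) i with hki
  have hkt' : kt = (T - y) * e := rfl
  have hki' : (s - y) * e ≤ ki := by
    rw [hki, kap]
    exact mul_le_mul_of_nonneg_left hei (by linarith)
  have hM : l w y (j + 1) - l w y (j + 2) = T * kt + s * ki := by
    rw [l_succ w y (j + 1), L_def]
    have e' : hat w (psi w y (j + 1)) = fun i => l w y (j + 1) - kap w y (j + 1) i :=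
      funext fun i => hat_psi_kap w y (j + 1) i
    rw [e', E_sub, E_const h, E_two (w := w) hti hall]
    ring
  rw [E_two (w := w) hti hall, hM, hat_psi_kap, hat_psi_kap, ← hT, ← hs, ← hkt, ← hki]
  set l1 := l w y (j + 1)
  set At := ch w y (a + 1) t with hAt
  set Bt := ch w y (b + 1) t with hBt
  set Ai := ch w y (a + 1) i with hAi
  set Bi := ch w y (b + 1) i with hBi
  have hAt0 : 0 < At := ch_pos h a t
  have hBt0 : 0 < Bt := ch_pos h b t
  have hAi0 : 0 < Ai := ch_pos h a i
  have hBi0 : 0 < Bi := ch_pos h b i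
  have hA : Ai * s ≤ At * T := by
    have := R2_le h ht a i
    rw [← hT, ← hs, ← h1, show 1 - s = T by linarith] at this
    exact this
  have hBb : Bi * s ≤ Bt * T := by
    have := R2_le h ht b i
    rw [← hT, ← hs, ← h1, show 1 - s = T by linarith] at this
    exact this
  have hAB : Ai * Bi * s ^ 2 ≤ At * Bt * T ^ 2 := by
    have := mul_le_mul hA hBb (by positivity) (by positivity)
    linarith
  -- the brackets
  set M' := T * (T - y) + s * (s - y) with hM'
  set bt := T * kt + s * ki - (r - T) * (l1 - kt) with hbt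
  set bi := T * kt + s * ki - (r - s) * (l1 - ki) with hbi
  have q0 := P0_ineq hy.le hyi.le hsT hone
  have q1 := P1_ineq hy.le hyi.le hsT hone
  have hrs : 0 ≤ r - s := by linarith
  have hrT : 0 ≤ r - T := by linarith
  -- lower bounds, multiplied by `2 s^2 T`
  have b1 : e * (2 * s ^ 2 * T * M' - (y - 2 * s * T ^ 2) * (s * T + y + y * s)) ≤
      2 * s ^ 2 * T * bt := by
    have c1 : 2 * s ^ 2 * T * (e * M') ≤ 2 * s ^ 2 * T * (T * kt + s * ki) := by
      refine mul_le_mul_of_nonneg_left ?_ (by positivity)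
      rw [hM', hkt']
      have := mul_le_mul_of_nonneg_left hki' hs0.le
      linarith
    have c2 : (r - T) * ((l1 - kt) * s) ≤ (r - T) * (e * (s * T + y + y * s)) := by
      refine mul_le_mul_of_nonneg_left ?_ hrT
      rw [hkt']
      linarith
    have c3 : 2 * s * T * (r - T) = y - 2 * s * T ^ 2 := by
      rw [← hr2]; ring
    have c4 := mul_le_mul_of_nonneg_left c2 (show 0 ≤ 2 * s * T by positivity)
    have c5 : 2 * s * T * ((r - T) * ((l1 - kt) * s)) =
        2 * s ^ 2 * T * ((r - T) * (l1 - kt)) := by ring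
    have c6 : 2 * s * T * ((r - T) * (e * (s * T + y + y * s))) =
        (2 * s * T * (r - T)) * (e * (s * T + y + y * s)) := by ring
    rw [c5, c6, c3] at c4
    rw [hbt]
    linarith
  have b2 : e * (2 * s ^ 2 * T * M' - (y - 2 * s ^ 2 * T) * (2 * s * T + y - s ^ 2 + y * s)) ≤
      2 * s ^ 2 * T * bi := by
    have c1 : 2 * s ^ 2 * T * (e * M') ≤ 2 * s ^ 2 * T * (T * kt + s * ki) := by
      refine mul_le_mul_of_nonneg_left ?_ (by positivity)
      rw [hM', hkt']
      have := mul_le_mul_of_nonneg_left hki' hs0.le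
      linarith
    have c2 : (r - s) * ((l1 - ki) * s) ≤ (r - s) * (e * (2 * s * T + y - s ^ 2 + y * s)) := by
      refine mul_le_mul_of_nonneg_left ?_ hrs
      have := mul_le_mul_of_nonneg_left hki' hs0.le
      linarith
    have c3 : 2 * s * T * (r - s) = y - 2 * s ^ 2 * T := by
      rw [← hr2]; ring
    have c4 := mul_le_mul_of_nonneg_left c2 (show 0 ≤ 2 * s * T by positivity)
    have c5 : 2 * s * T * ((r - s) * ((l1 - ki) * s)) =
        2 * s ^ 2 * T * ((r - s) * (l1 - ki)) := by ring
    have c6 : 2 * s * T * ((r - s) * (e * (2 * s * T + y - s ^ 2 + y * s))) =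
        (2 * s * T * (r - s)) * (e * (2 * s * T + y - s ^ 2 + y * s)) := by ring
    rw [c5, c6, c3] at c4
    rw [hbi]
    linarith
  have hbt0 : 0 ≤ bt := by
    have c1 : 0 ≤ e * (2 * s ^ 2 * T * M' - (y - 2 * s * T ^ 2) * (s * T + y + y * s)) :=
      mul_nonneg he0.le (sub_nonneg.2 q0)
    exact nonneg_of_mul_nonneg_right (c1.trans b1) (by positivity)
  have hcomb : 0 ≤ (T - y) * s * bt + (s - y) * T * bi := by
    have c1 := mul_le_mul_of_nonneg_left b1 (show 0 ≤ (T - y) * s from
      mul_nonneg (by linarith) hs0.le)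
    have c2 := mul_le_mul_of_nonneg_left b2 (show 0 ≤ (s - y) * T from
      mul_nonneg (by linarith) hT0.le)
    have c3 := mul_le_mul_of_nonneg_left q1 he0.le
    have c4 : 0 ≤ 2 * s ^ 2 * T * ((T - y) * s * bt + (s - y) * T * bi) := by
      rw [hM'] at c1 c2
      linarith
    exact nonneg_of_mul_nonneg_right c4 (by positivity)
  -- conclusion
  rcases le_total 0 bi with hbi0 | hbi0
  · have c1 : 0 ≤ T * ((T - y) * At * Bt * bt) :=
      mul_nonneg hT0.le (mul_nonneg (mul_nonneg (mul_nonneg (by linarith) hAt0.le) hBt0.le) hbt0)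
    have c2 : 0 ≤ s * ((s - y) * Ai * Bi * bi) :=
      mul_nonneg hs0.le (mul_nonneg (mul_nonneg (mul_nonneg (by linarith) hAi0.le) hBi0.le) hbi0)
    linarith
  · have c1 : (At * Bt * T ^ 2) * bi ≤ (Ai * Bi * s ^ 2) * bi :=
      mul_le_mul_of_nonpos_right hAB hbi0
    have c2 := mul_le_mul_of_nonneg_left c1 (show 0 ≤ s - y by linarith)
    have c3 := mul_le_mul_of_nonneg_left hcomb (show 0 ≤ At * Bt * T from
      mul_nonneg (mul_nonneg hAt0.le hBt0.le) hT0.le)
    have c4 : 0 ≤ s * (T * ((T - y) * At * Bt * bt) + s * ((s - y) * Ai * Bi * bi)) := by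
      linarith
    exact nonneg_of_mul_nonneg_right c4 hs0

/-! ### the inequality for two legs -/

theorem C1_one (h : Hyp w y) {t : Fin q} (ht : Top w t) (a c : ℕ) :
    (1 + w t) * Pw w y (a + c + 4) ≤
      Pw w y 1 * (w t * sa w y [a, c] + E w (sf w y [a, c])) := by
  have h1 := t2_eq (w := w) (y := y) (a + c + 3)
  rw [show 1 + (a + c + 3) = a + c + 4 by ring] at h1
  have hy := h.hy
  set X : Fin q → ℝ := fun i => (w i - y) * ch w y (a + 1) i * ch w y (c + 1) i with hX
  have e1 : E w (sf w y [a, c]) = l w y (a + c + 3) - E w (kap w y (a + c + 3)) +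
      y * E w (fun i => w i * X i) := by
    have e : sf w y [a, c] = fun i => (l w y (a + c + 3) -
        kap w y (a + c + 3) i) + y * (w i * X i) := by
      funext i; rw [sf_two, hat_psi_kap, hX]
    rw [e, E_add', E_sub, E_const h, E_const_mul]
  have e2 : sa w y [a, c] = l w y (a + c + 3) - y * E w X := sa_two a c
  have e3 : ∀ i, hat w (psi w y 1) i = 1 + y - w i := by
    intro i
    rw [hat_psi', ch_two h, ch_one]; ring
  have key : Pw w y 1 * (E w (kap w y (a + c + 3)) + y * (w t * E w X - E w (fun i => w i * X i))) ≤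
      (1 + w t) * E w (fun i => hat w (psi w y 1) i * kap w y (a + c + 3) i) := by
    have e4 : E w (kap w y (a + c + 3)) + y * (w t * E w X - E w (fun i => w i * X i)) =
        E w (fun i => kap w y (a + c + 3) i + y * ((w t - w i) * X i)) := by
      rw [E_add', E_const_mul]
      congr 2
      rw [← E_const_mul, ← E_sub]
      congr 1
      funext i
      ring
    rw [e4, ← E_const_mul, ← E_const_mul]
    refine E_mono h.nn fun i => ?_
    have a1 := (ch_prod h ht (c + 2) a).1 i
    rw [show a + (c + 2) + 1 = a + c + 3 by ring, show c + 2 + 1 = c + 3 by ring] at a1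
    have a2 := Tj h ht c i
    have hu : 0 ≤ w i - y := (sub_pos.2 (h.lt i)).le
    have ha := (ch_pos h a i).le
    have a3 : 0 ≤ 1 + y - w i := by linarith [w_lt_one h i]
    -- `y P X ≤ (1 + y - x) kap`
    have a4 : y * Pw w y 1 * X i ≤ (1 + y - w i) * kap w y (a + c + 3) i := by
      have h6 := mul_le_mul_of_nonneg_left a2 (mul_nonneg hu ha)
      have h7 := mul_le_mul_of_nonneg_left a1 (mul_nonneg hu a3)
      rw [hX, kap]
      simp only
      linarith
    have a5 := mul_le_mul_of_nonneg_left a4 (sub_nonneg.2 (ht i))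
    -- `(1 + x)(1 + y - x) ≥ P`
    have a6 : Pw w y 1 ≤ (1 + w i) * (1 + y - w i) := by
      rw [Pw_one' h]
      have := le_E h.nn (f := fun i => w i - y) (fun i => (sub_pos.2 (h.lt i)).le) i
      rw [E_sub, E_const h] at this
      linarith
    have a7 := mul_le_mul_of_nonneg_right a6 (kap_nonneg h (a + c + 3) i)
    rw [e3]
    linarith
  rw [e1, e2]
  rw [← h1] at key
  linarith

/-! ### (T0) -/

/-- a bad spider and its merged spider: the inequality `C a + <f> ≥ (1 + C) r` -/
theorem T0_aux (h : Hyp w y) (a c : ℕ) (J : List ℕ)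
    (hb : sa w y (a :: (J ++ [c])) * Pw w y 1 ≤ Pw w y (a + J.sum + J.length + c + 4)) :
    y * (Pw w y (a + J.sum + J.length + c + 4) - sa w y (a :: (J ++ [c])) * Pw w y 1) ≤
      (1 - E w w) * (E w (sf w y (a :: (J ++ [c]))) * Pw w y 1 -
        Pw w y (a + J.sum + J.length + c + 4)) := by
  obtain ⟨t, ht⟩ := exists_top h
  have hy := h.hy
  have hB := top_half h ht
  have p1 := Pw_pos h 1
  have hC1 := C1_one h ht (a + J.sum + J.length) c
  have hT0 := h.pos t
  have hlam : 0 < 1 - E w w := by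
    have e : 0 < E w (ch w y 2) := E_pos h fun i => ch_pos h 1 i
    have e2 : ch w y 2 = fun i => 1 - w i := funext fun i => ch_two h i
    rw [e2, E_sub, E_one h] at e
    exact e
  set A := a + J.sum + J.length with hA
  set r := Pw w y (A + c + 4)
  set lam := 1 - E w w with hlamd
  rcases le_total y (w t * lam) with hcase | hcase
  · have hm := merge_const_all h (r := w t) (fun c => ht c) (leg_top h ht) c J a
    rw [← hA] at hm
    have m1 := mul_le_mul_of_nonneg_left hm p1.le
    have m2 := mul_le_mul_of_nonneg_left (hC1.trans m1) hlam.le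
    have m3 := mul_nonneg (sub_nonneg.2 hcase) (sub_nonneg.2 hb)
    linarith
  · -- two big parts
    obtain ⟨i, hi⟩ := h.ne t
    have hs : 0 < 1 - w t := by linarith [w_lt_one h t]
    have hlamge : 2 * (1 - w t) * w t ≤ lam := by
      have := Eww_le h t
      rw [hlamd]
      nlinarith
    have hall : ∀ j, j = t ∨ j = i := by
      intro j
      by_contra hj
      rw [not_or] at hj
      have h3 := sum_le_sum_of_subset_of_nonneg (subset_univ ({t, i, j} : Finset (Fin q)))
        (f := w) (fun k _ _ => h.nn k)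
      rw [sum_insert (by simp [Ne.symm hi, Ne.symm hj.1]), sum_pair (Ne.symm hj.2), h.one] at h3
      have h4 := h.lt i
      have h5 := h.lt j
      have h6 : 2 * y < 1 - w t := by linarith
      have h7 : w t * (2 * (1 - w t) * w t) ≤ y := (mul_le_mul_of_nonneg_left hlamge hT0.le).trans hcase
      have h8 : 1 < 4 * w t ^ 2 := by nlinarith
      have h9 : w t * (2 * (1 - w t) * w t) = 2 * w t ^ 2 * (1 - w t) := by ring
      rw [h9] at h7
      have h10 : 2 * w t ^ 2 * (2 * y) < 2 * w t ^ 2 * (1 - w t) :=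
        mul_lt_mul_of_pos_left h6 (by positivity)
      nlinarith
    set C := y / lam with hCd
    have hClam : C * lam = y := div_mul_cancel₀ _ hlam.ne'
    have hCt : w t ≤ C := by
      rw [hCd, le_div_iff₀ hlam]
      exact hcase
    have hm := merge_const_all h (r := C) (fun c => (ht c).trans hCt)
      (leg_two_parts h ht (Ne.symm hi) hall hClam hCt) c J a
    rw [← hA] at hm
    have hnb := notBadTwo h A c
    rw [Bad] at hnb
    simp only [List.sum_cons, List.sum_nil, List.length_cons, List.length_nil] at hnb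
    rw [show A + (c + 0) + (0 + 1 + 1) + 2 = A + c + 4 by ring, not_lt] at hnb
    have m0 := mul_nonneg (sub_nonneg.2 hCt) (sub_nonneg.2 hnb)
    have m1 := mul_le_mul_of_nonneg_left hm p1.le
    have m2 : (1 + C) * r ≤ Pw w y 1 * (C * sa w y (a :: (J ++ [c])) +
        E w (sf w y (a :: (J ++ [c])))) := by
      linarith
    have m3 := mul_le_mul_of_nonneg_left m2 hlam.le
    have e1 : lam * ((1 + C) * r) = lam * r + y * r := by
      rw [← hClam]; ring
    have e2 : lam * (Pw w y 1 * (C * sa w y (a :: (J ++ [c])) +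
        E w (sf w y (a :: (J ++ [c]))))) = Pw w y 1 * (y * sa w y (a :: (J ++ [c])) +
        lam * E w (sf w y (a :: (J ++ [c])))) := by
      rw [← hClam]; ring
    rw [e1, e2] at m3
    linarith

/-- (T0) for bad spiders -/
theorem T0 (h : Hyp w y) (J : List ℕ) (hJ : 2 ≤ J.length) (hb : Bad w y J) :
    y * (Pw w y (J.sum + J.length + 2) - sa w y J * Pw w y 1) ≤
      (1 - E w w) * (E w (sf w y J) * Pw w y 1 - Pw w y (J.sum + J.length + 2)) := by
  cases J with
  | nil => simp at hJ
  | cons a L =>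
    rcases List.eq_nil_or_concat L with rfl | ⟨M, c, rfl⟩
    · simp at hJ
    · rw [Bad] at hb
      have n : (a :: (M ++ [c])).sum + (a :: (M ++ [c])).length + 2 =
          a + M.sum + M.length + c + 4 := by
        simp only [List.sum_cons, List.length_cons, List.sum_append, List.length_append,
          List.sum_nil, List.length_nil]; ring
      rw [List.concat_eq_append] at hb ⊢
      rw [n] at hb ⊢
      exact T0_aux h a c M hb.le

/-- (C) -/
theorem goodC (h : Hyp w y) : GoodC w y := by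
  intro Js h0 h1
  cases Js with
  | nil => exact absurd rfl h0
  | cons J Js =>
    refine Pool.Agent.Helper36.SW.good_bad h J Js fun K hK => ?_
    obtain ⟨h2, h3⟩ := h1 K hK
    exact ⟨(show sa w y K * Pw w y 1 < Pw w y (K.sum + K.length + 2) from h3).le,
      T0 h K (by omega) h3⟩

end Pool.Agent.Helper70.SW
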