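import Pool.Agent.Helper70.SW.Q
import Pool.Agent.Helper31.SW.Walk
import Pool.Agent.Helper31.SW.Tau

/-!
S-world: two spiders with two legs of even size each, at the same vertex.
-/

set_option autoImplicit false

namespace Pool.Agent.Helper70.SW

open Pool.Agent.Helper6.HL hiding X
open Pool.Agent.Helper4.SW
open Finset Polynomial

variable {q : ℕ} {w : Fin q → ℝ} {y : ℝ}

/-- alternation of the leg weights around a geometric sequence -/
theorem l_lim (h : Hyp w y) : ∃ lam c : ℝ, 0 < lam ∧ 0 ≤ c ∧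
    ∀ k, (Even k → y * y * l w y k ≤ c * lam ^ k) ∧ (Odd k → c * lam ^ k ≤ y * y * l w y k) := by
  obtain ⟨lam, hp⟩ := Pool.Agent.Helper31.SW.exists_perA h
  have hlam : 0 < lam := hp.1
  have hx := Pool.Agent.Helper31.SW.Hyp.xx_pos h
  obtain ⟨α, b, hα, hb, hb1, hb2, hm⟩ := Pool.Agent.Helper31.SW.ret_dec hp hx h.hy.le
    (Pool.Agent.Helper31.SW.Hyp.xx_ge h) Pool.Agent.Helper31.SW.e0
  have e1 : ∀ k, E (Pool.Agent.Helper31.SW.xx w y) (fun i => Pool.Agent.Helper31.SW.e0 i *
      ((K' (Pool.Agent.Helper31.SW.xx w y)) ^ k) Pool.Agent.Helper31.SW.e0 i) =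
      y * Pool.Agent.Helper31.SW.m w y k := by
    intro k
    rw [Pool.Agent.Helper31.SW.pow_e0, Pool.Agent.Helper31.SW.E_xx]
    simp [Pool.Agent.Helper31.SW.e0]
  have e2 : ∀ k, y * Pool.Agent.Helper31.SW.m w y k = lam ^ k * (α + (-1) ^ k * b k) :=
    fun k => by rw [← hm k, e1]
  have e3 : ∀ k, y * y * l w y k =
      lam ^ k * (α * (lam + y) - (-1) ^ k * (lam * b (k + 1) - y * b k)) := by
    intro k
    have h1 := Pool.Agent.Helper31.SW.m_succ w y k
    have h2 : y * y * l w y k = y * Pool.Agent.Helper31.SW.m w y (k + 1) +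
        y * (y * Pool.Agent.Helper31.SW.m w y k) := by
      rw [h1]; ring
    rw [h2, e2, e2, pow_succ, pow_succ]
    ring
  refine ⟨lam, α * (lam + y), hlam, mul_nonneg hα (add_pos hlam h.hy).le, fun k => ⟨?_, ?_⟩⟩
  · intro hk
    rw [e3, hk.neg_one_pow]
    have h1 := hb2 k
    have h2 := mul_nonneg (pow_pos hlam k).le (sub_nonneg.2 h1)
    linarith
  · intro hk
    rw [e3, hk.neg_one_pow]
    have h1 := hb2 k
    have h2 := mul_nonneg (pow_pos hlam k).le (sub_nonneg.2 h1)
    linarith

theorem l_parity (h : Hyp w y) {n m a : ℕ} (hn : Odd n) (hm : Odd m) (ha : Even a) :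
    l w y (n + m) * l w y a ≤ l w y (n + a) * l w y m := by
  obtain ⟨lam, c, hlam, hc, hk⟩ := l_lim h
  have hy := h.hy
  have h1 := (hk (n + m)).1 (hn.add_odd hm)
  have h2 := (hk a).1 ha
  have h3 := (hk (n + a)).2 (hn.add_even ha)
  have h4 := (hk m).2 hm
  have hyy : 0 < y * y := by positivity
  have g1 := mul_le_mul h1 h2 (mul_nonneg hyy.le (l_pos h a).le)
    (mul_nonneg hc (pow_pos hlam _).le)
  have g2 := mul_le_mul h3 h4 (mul_nonneg hc (pow_pos hlam _).le)
    (mul_nonneg hyy.le (l_pos h (n + a)).le)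
  have e : c * lam ^ (n + m) * (c * lam ^ a) = c * lam ^ (n + a) * (c * lam ^ m) := by
    rw [pow_add, pow_add]; ring
  rw [e] at g1
  have g3 := g1.trans g2
  have hyyyy : 0 < y * y * (y * y) := by positivity
  refine le_of_mul_le_mul_left ?_ hyyyy
  linarith

/-- the loss of a spider with two legs of even size (indices odd) -/
theorem loss_le (h : Hyp w y) {a b m : ℕ} (ha : Odd a) (hb : Odd b) (hm : Odd m) :
    2 * (y * E w (fun i => (w i - y) * ch w y (a + 1) i * ch w y (b + 1) i) * l w y m) ≤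
      l w y (a + b + 3) * l w y m - l w y (a + b + 3 + m) := by
  set n := a + b + 3 with hn
  set X : Fin q → ℝ := fun i => (w i - y) * ch w y (a + 1) i * ch w y (b + 1) i with hX
  have hnodd : Odd n := by
    have : n = (a + b) + 3 := rfl
    rw [this]
    exact (ha.add_odd hb).add_odd (by decide)
  have hla := l_pos h (a + 1)
  have hlm := l_pos h m
  have hy := h.hy
  have hq : (2 : ℝ) ≤ q := by exact_mod_cast h.two
  -- pointwise
  have h1 : q * (y * E w X) * l w y (a + 1) ≤
      l w y (a + 1) * l w y n - l w y (a + 1 + n) := by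
    have m2 := (merge_id w y (a + 1) n).2
    rw [m2, add_sub_cancel_left]
    have e : q * (y * E w X) * l w y (a + 1) = E w (fun i => (q * y * l w y (a + 1)) * X i) := by
      rw [E_const_mul]; ring
    rw [e]
    refine E_mono h.nn fun i => ?_
    have h2 := Pool.Agent.Helper31.SW.ch_ge_even h i (a + 1) (b := b + 1) hb.add_one
    rw [show a + 1 + (b + 1) + 1 = n by omega] at h2
    have h3 := mul_le_mul_of_nonneg_left h2
      (mul_nonneg (sub_pos.2 (h.lt i)).le (ch_pos h a i).le)
    rw [hX]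
    simp only
    linarith
  have h2 := l_parity h hnodd hm (ha.add_one)
  have hX0 : 0 ≤ E w X := E_nonneg h.nn fun i => (X_pos h a b i).le
  have h3 : 2 * (y * E w X) * l w y (a + 1) ≤ l w y (a + 1) * l w y n - l w y (a + 1 + n) := by
    refine le_trans ?_ h1
    have := mul_le_mul_of_nonneg_right hq (mul_nonneg (mul_nonneg hy.le hX0) hla.le)
    linarith
  have h4 := mul_le_mul_of_nonneg_right h3 hlm.le
  refine le_of_mul_le_mul_left ?_ hla
  rw [show n + (a + 1) = a + 1 + n by ring] at h2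
  linarith

/-- two spiders with two legs of even size each -/
theorem EE_cond (h : Hyp w y) {a b c d : ℕ} (ha : Odd a) (hb : Odd b) (hc : Odd c) (hd : Odd d) :
    l w y (a + b + 3 + (c + d + 3)) ≤ sa w y [a, b] * sa w y [c, d] := by
  rw [sa_two, sa_two]
  set n := a + b + 3 with hn
  set m := c + d + 3 with hm
  have hno : Odd n := (ha.add_odd hb).add_odd (by decide)
  have hmo : Odd m := (hc.add_odd hd).add_odd (by decide)
  have h1 := loss_le h ha hb hmo
  have h2 := loss_le h hc hd hno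
  rw [← hn] at h1
  rw [← hm, show m + n = n + m by ring] at h2
  set x1 := E w (fun i => (w i - y) * ch w y (a + 1) i * ch w y (b + 1) i)
  set x2 := E w (fun i => (w i - y) * ch w y (c + 1) i * ch w y (d + 1) i)
  have hx1 : 0 ≤ x1 := E_nonneg h.nn fun i => (X_pos h a b i).le
  have hx2 : 0 ≤ x2 := E_nonneg h.nn fun i => (X_pos h c d i).le
  have h3 : 0 ≤ (y * x1) * (y * x2) :=
    mul_nonneg (mul_nonneg h.hy.le hx1) (mul_nonneg h.hy.le hx2)
  linarith

theorem EE_imp (h : Hyp w y) {a b c d : ℕ} (ha : Odd a) (hb : Odd b) (hc : Odd c) (hd : Odd d) :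
    Imp w y (.cons (R [a, b]) (.cons (R [c, d]) .nil)) := by
  refine Q_imp h [a, b] [c, d] (by simp) (by simp) ?_
  have := EE_cond h ha hb hc hd
  simp only [List.sum_cons, List.sum_nil, List.length_cons, List.length_nil]
  rw [show a + (b + 0) + (0 + 1 + 1) + 1 + (c + (d + 0) + (0 + 1 + 1) + 1) =
    a + b + 3 + (c + d + 3) by ring]
  exact this

end Pool.Agent.Helper70.SW
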