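import Pool.Agent.Helper4.SW.RealHalf
import Pool.Agent.Helper70.SW.EE
import Pool.Agent.Helper20.SW.Parts
import Pool.Agent.Helper20.SW.Asm3
import Pool.Agent.Helper66.SW.GoodD
import Pool.Agent.Helper76.FU.ClassI

/-!
S-world: the frozen statement from three remaining local statements.
-/

set_option autoImplicit false

namespace Pool.Agent.Helper70.SW

open Pool.Agent.Helper6.HL hiding X
open Pool.Agent.Helper4.SW
open Finset Polynomial

variable {q : ℕ} (w : Fin q → ℝ) (y : ℝ)

/-- one spider with two legs of even size and bad spiders at a vertex which has a parent -/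
def GoodE1 : Prop := ∀ (a b : ℕ) (Ks : List (List ℕ)), Odd a → Odd b → Ks ≠ [] →
  (∀ K ∈ Ks, 3 ≤ K.length ∧ Bad w y K) → Good w y (.cons (.cons (R [a, b]) (Sp Ks)) .nil)

/-- a leg of size two and a spider with at most one leg of even size and no leaf -/
def Good5 : Prop := ∀ J : List ℕ, 3 ≤ J.length → 0 ∉ J →
  J.countP (fun j => decide (Odd j)) ≤ 1 → Good w y (.cons (R J) (R [1]))

variable {w y}

/-- a leg next to a spider with two legs of even size -/
theorem EE_leg (h : Hyp w y) {a b : ℕ} (ha : Odd a) (hb : Odd b) (c : ℕ) :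
    Imp w y (.cons (R [a, b]) (R [c])) := by
  rcases Nat.even_or_odd c with hc | hc
  · refine Pool.Agent.Helper76.FU.leg_FU h hc ?_ (by simp) (a := a) (by simp) ha
    intro h0
    simp only [List.mem_cons, List.not_mem_nil, or_false] at h0
    rcases h0 with h0 | h0
    · rw [← h0] at ha; exact absurd ha (by decide)
    · rw [← h0] at hb; exact absurd hb (by decide)
  · refine Pool.Agent.Helper66.SW.leg_even h hc ?_ (by simp)
    intro j hj
    simp only [List.mem_cons, List.not_mem_nil, or_false] at hj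
    rcases hj with rfl | rfl
    · exact ha
    · exact hb

/-- the alternatives for one spider -/
theorem spider_cases (h : Hyp w y) (K : List ℕ) (hK : 2 ≤ K.length) :
    Good w y (.cons (R K) .nil) ∨ (∃ a b, K = [a, b] ∧ Odd a ∧ Odd b) ∨
      (3 ≤ K.length ∧ Bad w y K) := by
  by_cases hb : Bad w y K
  · right; right
    refine ⟨?_, hb⟩
    by_contra hc
    obtain ⟨a, b, rfl⟩ : ∃ a b, K = [a, b] := by
      match K, hK, hc with
      | [a, b], _, _ => exact ⟨a, b, rfl⟩
      | a :: b :: c :: K, _, hc => exact absurd (by simp) hc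
    exact notBadTwo h a b hb
  · rcases Nat.lt_or_ge K.length 3 with h3 | h3
    · by_cases hex : ∃ j ∈ K, Even j
      · exact Or.inl (Pool.Agent.Helper20.SW.goodG_odd h K hK hex hb)
      push Not at hex
      have hodd : ∀ j ∈ K, Odd j := fun j hj => Nat.not_even_iff_odd.1 (hex j hj)
      match K, hK, h3 with
      | [a, b], _, _ => exact Or.inr (Or.inl ⟨a, b, rfl, hodd a (by simp), hodd b (by simp)⟩)
      | a :: b :: c :: K, _, h3 => exact absurd h3 (by simp)
    · exact Or.inl (goodG_three h K h3 hb)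

/-- bring one spider to the front -/
theorem Sp_front (Js1 Js2 : List (List ℕ)) (K : List ℕ) :
    Sim w y (.cons (R K) (Sp (Js1 ++ Js2))) (Sp (Js1 ++ K :: Js2)) := by
  have e1 : B.cons (R K) (Sp (Js1 ++ Js2)) = (B.app (.cons (R K) .nil) (Sp (Js1 ++ Js2))) := rfl
  rw [e1, Sp_append, Sp_append, ← app_assoc]
  have a1 : Sp (K :: Js2) = B.app (.cons (R K) .nil) (Sp Js2) := rfl
  rw [a1, ← app_assoc]
  exact Sim.app (Sim.app_comm _ _) (Sim.refl _)

theorem Sim.good_iff' {F G : B} (h : Sim w y F G) (hF : Good w y F) : Good w y G := Good.sim h hF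

theorem G2_good4 (h : Hyp w y) (hD : GoodD w y) (hE1 : GoodE1 w y) (g : B) (hg : G2 w y g) :
    Good w y (.cons g .nil) := by
  obtain ⟨Js, J, h0, h1, hsim⟩ := hg
  -- (1) a spider which is good anywhere
  by_cases hex : ∃ K ∈ Js, Good w y (.cons (R K) .nil)
  · obtain ⟨K, hK, hKg⟩ := hex
    obtain ⟨Js1, Js2, rfl⟩ := List.append_of_mem hK
    refine Good.cons_left h.nn h.hy.le (Good.sim hsim.symm ?_) .nil
    refine Good.sim (Sim.app (Sp_front Js1 Js2 K) (Sim.refl (R J))) ?_
    have e : (B.cons (R K) (Sp (Js1 ++ Js2))).app (R J) =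
        (B.cons (R K) .nil).app ((Sp (Js1 ++ Js2)).app (R J)) := rfl
    rw [e]
    exact hKg.app_right h.nn h.hy.le _
  have hcase : ∀ K ∈ Js, (∃ a b, K = [a, b] ∧ Odd a ∧ Odd b) ∨ (3 ≤ K.length ∧ Bad w y K) := by
    intro K hK
    rcases spider_cases h K (h1 K hK) with h2 | h2
    · exact absurd ⟨K, hK, h2⟩ hex
    · exact h2
  cases J with
  | cons c J' =>
    -- (2) a leg
    cases Js with
    | nil => exact absurd rfl h0
    | cons K Ks =>
      have hKc : Good w y (.cons (R K) (R [c])) := by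
        rcases hcase K (by simp) with ⟨a, b, rfl, ha, hb⟩ | ⟨h2, h3⟩
        · exact (EE_leg h ha hb c).good
        · exact hD c K h2 h3
      refine Good.cons_left h.nn h.hy.le (Good.sim hsim.symm ?_) .nil
      have e1 : Sim w y (B.app (.cons (R K) (R [c])) (B.app (Sp Ks) (R J')))
          (B.app (Sp (K :: Ks)) (R (c :: J'))) := by
        have a1 : B.app (.cons (R K) (R [c])) (B.app (Sp Ks) (R J')) =
            .cons (R K) (B.app (B.app (R [c]) (Sp Ks)) (R J')) := by
          rw [app_assoc]; rfl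
        have a2 : B.app (Sp (K :: Ks)) (R (c :: J')) =
            .cons (R K) (B.app (B.app (Sp Ks) (R [c])) (R J')) := by
          rw [app_assoc]; rfl
        rw [a1, a2]
        exact Sim.cons (Sim.refl _) (Sim.app (Sim.app_comm _ _) (Sim.refl _))
      exact Good.sim e1 (hKc.app_right h.nn h.hy.le _)
  | nil =>
    have hsim' : Sim w y g (Sp Js) := by
      have : (Sp Js).app (R []) = Sp Js := by rw [R, app_nil]
      rw [this] at hsim
      exact hsim
    -- (3) no spider with two even legs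
    by_cases hEE : ∃ K ∈ Js, ∃ a b, K = [a, b] ∧ Odd a ∧ Odd b
    · obtain ⟨K, hK, a, b, rfl, ha, hb⟩ := hEE
      obtain ⟨Js1, Js2, rfl⟩ := List.append_of_mem hK
      have hs2 : Sim w y (.cons (R [a, b]) (Sp (Js1 ++ Js2))) g :=
        (Sp_front Js1 Js2 [a, b]).trans hsim'.symm
      refine Good.sim (Sim.cons hs2 (Sim.refl _)) ?_
      have hcase' : ∀ K ∈ Js1 ++ Js2, (∃ a b, K = [a, b] ∧ Odd a ∧ Odd b) ∨
          (3 ≤ K.length ∧ Bad w y K) := by
        intro K hK
        refine hcase K ?_
        simp only [List.mem_append, List.mem_cons] at hK ⊢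
        tauto
      generalize Js1 ++ Js2 = Ks at hcase'
      by_cases hn : Ks = []
      · rw [hn]
        exact (caseA h a b []).good
      by_cases hEE2 : ∃ K ∈ Ks, ∃ a b, K = [a, b] ∧ Odd a ∧ Odd b
      · -- two of them
        obtain ⟨K, hK, c, d, rfl, hc, hd⟩ := hEE2
        obtain ⟨Ks1, Ks2, rfl⟩ := List.append_of_mem hK
        refine Good.cons_left h.nn h.hy.le ?_ .nil
        refine Good.sim (Sim.cons (Sim.refl _) (Sp_front Ks1 Ks2 [c, d])) ?_
        have e : B.cons (R [a, b]) (.cons (R [c, d]) (Sp (Ks1 ++ Ks2))) =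
            (B.cons (R [a, b]) (.cons (R [c, d]) .nil)).app (Sp (Ks1 ++ Ks2)) := rfl
        rw [e]
        exact (EE_imp h ha hb hc hd).good.app_right h.nn h.hy.le _
      · push Not at hEE2
        refine hE1 a b Ks ha hb hn fun K hK => ?_
        rcases hcase' K hK with ⟨c, d, h2, hc, hd⟩ | h2
        · exact absurd hd (hEE2 K hK c d h2 hc)
        · exact h2
    · push Not at hEE
      refine Good.sim (Sim.cons hsim'.symm (Sim.refl _)) ?_
      refine goodC h Js h0 fun K hK => ?_
      rcases hcase K hK with ⟨c, d, h2, hc, hd⟩ | h2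
      · exact absurd hd (hEE K hK c d h2 hc)
      · exact h2

/-- the frozen statement -/
theorem frozen_of_E1_5
    (hE1 : ∀ (q : ℕ) (w : Fin q → ℝ) (y : ℝ), Hyp w y → GoodE1 w y)
    (h5 : ∀ (q : ℕ) (w : Fin q → ℝ) (y : ℝ), Hyp w y → Good5 w y) :
    ∀ r : ℕ, 3 ≤ r → ∀ (W : Type) [Fintype W] (p : W → Fin r), Function.Surjective p →
      ∀ (n : ℕ) (T : SimpleGraph (Fin n)), T.IsTree →
        Nat.card {f : Fin n → W // ∀ a b : Fin n, (SimpleGraph.pathGraph n).Adj a b → p (f a) ≠ p (f b)}
          ≤ Nat.card {f : Fin n → W // ∀ a b : Fin n, T.Adj a b → p (f a) ≠ p (f b)} := by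
  refine frozen_of_SW fun q w y hinj hy hlt hone hhalf F => ?_
  rcases Nat.lt_or_ge q 2 with hq | hq
  · interval_cases q
    · simp at hone
    · rw [Fin.sum_univ_one] at hone
      exact SW_one w hone y hy.le (hone ▸ (hlt 0).le) F
  have h : Hyp w y := ⟨hq, hinj, hy, hlt, hone, hhalf⟩
  have hD : GoodD w y := Pool.Agent.Helper66.SW.goodD_of h
    (fun c J h1 h2 h3 h4 h6 => Pool.Agent.Helper76.FU.class_i h c J h1 h2 h3 h4 h6) (h5 q w y h)
  exact SW_of_good h (G2_good4 h hD (hE1 q w y h)) F

end Pool.Agent.Helper70.SW
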