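import Pool.Agent.Helper36.SW.StrB
import Pool.Agent.Helper70.SW.Fin2

/-!
S-world: one spider with two legs of even size and bad spiders at a vertex which has a parent, from
statement (A) (two parts only, the smallest legs strong: `w t (1 - w t) ≤ y`).
-/

set_option autoImplicit false

namespace Pool.Agent.Helper70.SW

open Pool.Agent.Helper6.HL hiding X
open Pool.Agent.Helper4.SW
open Pool.Agent.Helper20.SW (GoodFrom good_of_goodFrom size_Sp_pos)
open Finset Polynomial

variable {q : ℕ} {w : Fin q → ℝ} {y : ℝ}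

/-- there are only two parts if `w t (1 - w t) ≤ y` -/
theorem all_two (h : Hyp w y) {t i : Fin q} (ht : Top w t) (hi : i ≠ t)
    (hc : w t * (1 - w t) ≤ y) : ∀ j, j = t ∨ j = i := by
  intro j
  by_contra hj
  rw [not_or] at hj
  have h3 := sum_le_sum_of_subset_of_nonneg (subset_univ ({t, i, j} : Finset (Fin q)))
    (f := w) (fun k _ _ => h.nn k)
  rw [sum_insert (by simp [Ne.symm hi, Ne.symm hj.1]), sum_pair (Ne.symm hj.2), h.one] at h3
  have h4 := h.lt i
  have h5 := h.lt j
  have h6 : 2 * y < 1 - w t := by linarith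
  obtain ⟨k, hk⟩ := h.half
  have h7 : 1 / 2 < w t := by
    have := ht k
    have := h.hy
    linarith
  nlinarith [h.hy]

theorem goodE1_of (h : Hyp w y)
    (hA : ∀ t i : Fin q, Top w t → t ≠ i → (∀ j, j = t ∨ j = i) → w t * (1 - w t) ≤ y →
      ∀ a b : ℕ, Odd a → Odd b → GoodFrom w y 2 (.cons (R [a, b]) .nil)) : GoodE1 w y := by
  intro a b Ks ha hb hn hKs
  obtain ⟨t, ht⟩ : ∃ t, Top w t := by
    have : Nonempty (Fin q) := ⟨⟨0, by have := h.two; omega⟩⟩
    exact Finite.exists_max w
  rcases le_total y (w t * (1 - w t)) with hc | hc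
  · exact (Pool.Agent.Helper36.SW.straight_bad h ht hc a b Ks hKs).good
  · obtain ⟨i, hi⟩ := h.ne t
    have h1 := hA t i ht (Ne.symm hi) (all_two h ht hi hc) hc a b ha hb
    have h2 : GoodFrom w y 1 (.cons (R [a, b]) (Sp Ks)) := by
      have := GoodFrom.app_right h.nn h.hy.le 2 1 h1 (Sp Ks) (by have := size_Sp_pos hn; omega)
      exact this
    exact good_of_goodFrom (GoodFrom.cons_left h.nn h.hy.le 1 0 h2 .nil (by simp [B.size]))

end Pool.Agent.Helper70.SW
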