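import Pool.Agent.Helper4.SW.EEA
import Pool.Agent.Helper70.SW.E1

/-!
S-world: `GoodE1`, and the frozen statement from class (v).
-/

set_option autoImplicit false

namespace Pool.Agent.Helper70.SW

open Pool.Agent.Helper6.HL hiding X
open Pool.Agent.Helper4.SW
open Finset Polynomial

variable {q : ℕ} {w : Fin q → ℝ} {y : ℝ}

/-- one spider with two legs of even size and bad spiders at a vertex which has a parent -/
theorem goodE1 (h : Hyp w y) : GoodE1 w y :=
  goodE1_of h fun _ _ ht hti hall hc a b _ _ => EE_A h ht hti hall hc a b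

/-- the frozen statement from class (v) -/
theorem frozen_of_5 (h5 : ∀ (q : ℕ) (w : Fin q → ℝ) (y : ℝ), Hyp w y → Good5 w y) :
    ∀ r : ℕ, 3 ≤ r → ∀ (W : Type) [Fintype W] (p : W → Fin r), Function.Surjective p →
      ∀ (n : ℕ) (T : SimpleGraph (Fin n)), T.IsTree →
        Nat.card {f : Fin n → W // ∀ a b : Fin n, (SimpleGraph.pathGraph n).Adj a b → p (f a) ≠ p (f b)}
          ≤ Nat.card {f : Fin n → W // ∀ a b : Fin n, T.Adj a b → p (f a) ≠ p (f b)} :=
  frozen_of_E1_5 (fun _ _ _ h => goodE1 h) h5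

end Pool.Agent.Helper70.SW
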