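import Pool.Agent.Helper70.SW.C

/-!
S-world: every good spider with at least three legs is good anywhere: certificate
`delete the spider | merge two of its legs`.
-/

set_option autoImplicit false

namespace Pool.Agent.Helper70.SW

open Pool.Agent.Helper6.HL hiding X
open Pool.Agent.Helper4.SW
open Finset Polynomial

theorem K_aux {y a b c : ℝ} (hy : 0 ≤ y) (ha : 0 ≤ a) (hb : 0 ≤ b) (hc : 0 ≤ c) :
    (y + a - y) * ((y + a + b + y + c) + (y + a + b) - (y + a)) *
      (2 * y * ((y + a + b + y + c) + (y + a + b)) +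
        (y + a + b) * ((y + a + b + y + c) + (y + a + b) + (y + a + b + y + c)) - (y + a) ^ 2 -
        2 * (y + a) * ((y + a + b + y + c) + (y + a + b) + y - (y + a))) ≤
    (y + a + b) * (y + a + b + y + c) * (y + a + b + y) * ((y + a + b + y + c) - y) := by
  rw [← sub_nonneg]
  have e : (y + a + b) * (y + a + b + y + c) * (y + a + b + y) * ((y + a + b + y + c) - y) -
      (y + a - y) * ((y + a + b + y + c) + (y + a + b) - (y + a)) *
      (2 * y * ((y + a + b + y + c) + (y + a + b)) +
        (y + a + b) * ((y + a + b + y + c) + (y + a + b) + (y + a + b + y + c)) - (y + a) ^ 2 -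
        2 * (y + a) * ((y + a + b + y + c) + (y + a + b) + y - (y + a))) =
      ((b^2 - a*b - a^2)^2 + y*b*(2*(b-a)^2 + 4*b^2) +
        c*b*((b - a/2)^2 + b^2 + (7/4)*a^2)) +
      (2*(a*b*c*y) + 2*(a*b*y^2) + 5*(a*c*y^2) + a*c^2*y + 4*(a*y^3) + 5*(a^2*c*y) + a^2*c^2 +
        5*(a^2*y^2) + 2*(a^3*c) + 4*(a^3*y) + 13*(b*c*y^2) + 3*(b*c^2*y) + 12*(b*y^3) +
        9*(b^2*c*y) + b^2*c^2 + 13*(b^2*y^2) + 6*(c*y^3) + 2*(c^2*y^2) + 4*y^4) := by ring
  rw [e]
  positivity

theorem K_ineq {y z s t : ℝ} (hy : 0 ≤ y) (hz : y ≤ z) (hs : z ≤ s) (ht : s + y ≤ t)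
    (h1 : t + s = 1) :
    (z - y) * (1 - z) * (2 * y + s * (1 + t) - z ^ 2 - 2 * z * (1 + y - z)) ≤
      s * t * (s + y) * (t - y) := by
  have h := K_aux hy (sub_nonneg.2 hz) (sub_nonneg.2 hs) (sub_nonneg.2 ht)
  have e1 : y + (z - y) = z := by ring
  have e2 : z + (s - z) = s := by ring
  have e3 : s + y + (t - (s + y)) = t := by ring
  rw [e1, e2, e3, h1, mul_one] at h
  linarith

variable {q : ℕ} {w : Fin q → ℝ} {y : ℝ}

theorem hat_psi_one (h : Hyp w y) (i : Fin q) : hat w (psi w y 1) i = 1 + y - w i := by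
  rw [hat_psi', ch_two h, ch_one]; ring

/-- `P_2 kap_i ≤ <psi_1 kap> + x_i (1 + y - x_i) kap_i` for every part but the top one -/
theorem K_i (h : Hyp w y) {t i : Fin q} (ht : Top w t) (hi : i ≠ t) (N : ℕ) :
    Pw w y 1 * kap w y (N + 1) i ≤
      E w (fun j => hat w (psi w y 1) j * kap w y (N + 1) j) +
        w i * (1 + y - w i) * kap w y (N + 1) i := by
  have hy := h.hy
  have hB := top_half h ht
  have hyi := h.lt i
  have hyt := h.lt t
  have hsz : w i ≤ 1 - w t := le_compl h hi
  have hwt := w_lt_one h t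
  have hwi := w_lt_one h i
  have hR := R2_le h ht N i
  have hE := le_E2 h.nn (f := fun j => hat w (psi w y 1) j * kap w y (N + 1) j)
    (fun j => mul_nonneg (psi_pos h 1 j).le (kap_nonneg h (N + 1) j)) hi
  simp only [hat_psi_one h] at hE
  simp only [hat_psi_one h]
  have hP : Pw w y 1 ≤ 2 * y + (1 - w t) * (1 + w t) - w i ^ 2 := by
    rw [Pw_one' h]
    have := Eww_ge h hi
    linarith
  have hpoly := K_ineq hy.le hyi.le hsz (show (1 - w t) + y ≤ w t by linarith)
    (show w t + (1 - w t) = 1 by ring)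
  set s := 1 - w t with hs
  have hs0 : 0 < s := by linarith
  set e := ch w y (N + 1) t with he
  set f := ch w y (N + 1) i with hf
  have he0 : 0 < e := ch_pos h N t
  have hf0 : 0 < f := ch_pos h N i
  have hkt : kap w y (N + 1) t = (w t - y) * e := rfl
  have hki : kap w y (N + 1) i = (w i - y) * f := rfl
  have hki0 : 0 ≤ (w i - y) * f := mul_nonneg (by linarith) hf0.le
  set br := 2 * y + s * (1 + w t) - w i ^ 2 - 2 * w i * (1 + y - w i) with hbr
  -- reduce to the bracket
  have key : br * ((w i - y) * f) ≤ w t * ((1 + y - w t) * ((w t - y) * e)) := by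
    rcases le_total br 0 with hb | hb
    · have h1 := mul_nonneg_of_nonpos_of_nonpos hb (neg_nonpos.2 hki0)
      have h2 : 0 ≤ w t * ((1 + y - w t) * ((w t - y) * e)) :=
        mul_nonneg (h.nn t) (mul_nonneg (by linarith) (mul_nonneg (by linarith) he0.le))
      linarith
    · refine le_of_mul_le_mul_left ?_ hs0
      have h1 : (br * (w i - y)) * (f * s) ≤ (br * (w i - y)) * (e * (1 - w i)) :=
        mul_le_mul_of_nonneg_left hR (mul_nonneg hb (by linarith))
      have h2 := mul_le_mul_of_nonneg_right hpoly he0.le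
      have h3 : 1 + y - w t = s + y := by rw [hs]; ring
      rw [h3]
      linarith
  have h4 := mul_le_mul_of_nonneg_right hP hki0
  rw [hkt, hki] at hE
  rw [hki]
  rw [hbr] at key
  linarith

/-- (C1) for two legs and every function of the cone -/
theorem C1_cone (h : Hyp w y) {t : Fin q} (ht : Top w t) {G : Fin q → ℝ} (hG : Cone w G)
    (a c : ℕ) :
    Pw w y (a + c + 4) * (w t * G t + E w G) ≤
      Pw w y 1 * (w t * G t * sa w y [a, c] + E w (fun i => G i * sf w y [a, c] i)) := by
  have h1 := t2_eq (w := w) (y := y) (a + c + 3)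
  rw [show 1 + (a + c + 3) = a + c + 4 by ring] at h1
  have hy := h.hy
  set X : Fin q → ℝ := fun i => (w i - y) * ch w y (a + 1) i * ch w y (c + 1) i with hX
  set κ : Fin q → ℝ := kap w y (a + c + 3) with hκ
  set τ := E w (fun i => hat w (psi w y 1) i * κ i) with hτ
  have e1 : E w (fun i => G i * sf w y [a, c] i) = l w y (a + c + 3) * E w G -
      E w (fun i => G i * κ i) + y * E w (fun i => w i * G i * X i) := by
    have e : (fun i => G i * sf w y [a, c] i) = fun i => (l w y (a + c + 3) * G i -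
        G i * κ i) + y * (w i * G i * X i) := by
      funext i; rw [sf_two, hat_psi_kap, hX]; ring
    rw [e, E_add', E_sub, E_const_mul, E_const_mul]
  have e2 : sa w y [a, c] = l w y (a + c + 3) - y * E w X := sa_two a c
  have hκ0 : ∀ i, 0 ≤ κ i := kap_nonneg h (a + c + 3)
  have hGt : 0 ≤ G t := hG.nn t
  -- pointwise bound of `X`
  have hXκ : ∀ i, y * Pw w y 1 * X i ≤ (1 + y - w i) * κ i := by
    intro i
    have a1 := (ch_prod h ht (c + 2) a).1 i
    rw [show a + (c + 2) + 1 = a + c + 3 by ring, show c + 2 + 1 = c + 3 by ring] at a1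
    have a2 := Tj h ht c i
    have hu : 0 ≤ w i - y := (sub_pos.2 (h.lt i)).le
    have ha := (ch_pos h a i).le
    have a3 : 0 ≤ 1 + y - w i := by linarith [w_lt_one h i]
    have h6 := mul_le_mul_of_nonneg_left a2 (mul_nonneg hu ha)
    have h7 := mul_le_mul_of_nonneg_left a1 (mul_nonneg hu a3)
    rw [hX, hκ, kap]
    simp only
    linarith
  -- the coefficients
  have hcoef : ∀ i, i ≠ t →
      0 ≤ τ - κ i * (Pw w y 1 - w i * (1 + y - w i)) := by
    intro i hi
    have := K_i h ht hi (a + c + 2)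
    rw [show a + c + 2 + 1 = a + c + 3 by ring, ← hκ, ← hτ] at this
    linarith
  have hsum : 0 ≤ E w (fun i => τ - κ i * (Pw w y 1 - w i * (1 + y - w i))) := by
    have e3 : E w (fun i => τ - κ i * (Pw w y 1 - w i * (1 + y - w i))) =
        E w (fun i => κ i * ((1 + w i) * (1 + y - w i) - Pw w y 1)) := by
      rw [E_sub, E_const h, hτ, ← E_sub]
      congr 1
      funext i
      rw [hat_psi_one h]
      ring
    rw [e3]
    refine E_nonneg h.nn fun i => mul_nonneg (hκ0 i) ?_
    rw [Pw_one' h]
    have := le_E h.nn (f := fun i => w i - y) (fun i => (sub_pos.2 (h.lt i)).le) i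
    rw [E_sub, E_const h] at this
    linarith
  have hmain : 0 ≤ E w (fun i => G i * (τ - κ i * (Pw w y 1 - w i * (1 + y - w i)))) := by
    refine le_trans (mul_nonneg hGt hsum) ?_
    rw [← E_const_mul]
    refine E_mono h.nn fun i => ?_
    rcases eq_or_ne i t with rfl | hi
    · exact le_rfl
    · exact mul_le_mul_of_nonneg_right (hG.anti i t (ht i)) (hcoef i hi)
  have hmain2 : Pw w y 1 * E w (fun i => G i * κ i) ≤ τ * E w G +
      E w (fun i => w i * G i * ((1 + y - w i) * κ i)) := by
    have e4 : E w (fun i => G i * (τ - κ i * (Pw w y 1 - w i * (1 + y - w i)))) =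
        τ * E w G + E w (fun i => w i * G i * ((1 + y - w i) * κ i)) -
          Pw w y 1 * E w (fun i => G i * κ i) := by
      rw [← E_const_mul, ← E_const_mul, ← E_add', ← E_sub]
      congr 1
      funext i
      ring
    linarith
  -- the terms with `X`
  have hXX : Pw w y 1 * (y * (w t * G t * E w X - E w (fun i => w i * G i * X i))) ≤
      w t * G t * τ - E w (fun i => w i * G i * ((1 + y - w i) * κ i)) := by
    have e5 : Pw w y 1 * (y * (w t * G t * E w X - E w (fun i => w i * G i * X i))) =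
        E w (fun i => (w t * G t - w i * G i) * (y * Pw w y 1 * X i)) := by
      have e6 : (fun i => (w t * G t - w i * G i) * (y * Pw w y 1 * X i)) =
          fun i => (w t * G t * (y * Pw w y 1)) * X i - (y * Pw w y 1) * (w i * G i * X i) := by
        funext i; ring
      rw [e6, E_sub, E_const_mul, E_const_mul]
      ring
    have e7 : w t * G t * τ - E w (fun i => w i * G i * ((1 + y - w i) * κ i)) =
        E w (fun i => (w t * G t - w i * G i) * ((1 + y - w i) * κ i)) := by
      rw [hτ, ← E_const_mul, ← E_sub]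
      congr 1
      funext i
      rw [hat_psi_one h]
      ring
    rw [e5, e7]
    refine E_mono h.nn fun i => ?_
    exact mul_le_mul_of_nonneg_left (hXκ i) (sub_nonneg.2 (hG.mono i t (ht i)))
  rw [e1, e2]
  have e8 : Pw w y (a + c + 4) = l w y (a + c + 3) * Pw w y 1 - τ := by
    rw [← h1]; ring
  rw [e8]
  linarith

/-- (FM): the same for every spider -/
theorem FM (h : Hyp w y) {t : Fin q} (ht : Top w t) {Λ : ℝ[X]} (hΛ : NN Λ) (a c : ℕ)
    (J : List ℕ) :
    Pw w y (a + J.sum + J.length + c + 4) * (w t * hat w Λ t + E w (hat w Λ)) ≤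
      Pw w y 1 * (w t * hat w Λ t * sa w y (a :: (J ++ [c])) +
        E w (fun i => hat w Λ i * sf w y (a :: (J ++ [c])) i)) := by
  have hmerge := R_merge_all h ht hΛ (A := w t * hat w Λ t / y)
    (by rw [mul_div_cancel₀ _ h.hy.ne']) c J a
  rw [Z_sp, Z_sp, mul_div_cancel₀ _ h.hy.ne'] at hmerge
  refine (C1_cone h ht (Cone.hat h.nn hΛ) (a + J.sum + J.length) c).trans ?_
  exact mul_le_mul_of_nonneg_left hmerge (Pw_pos h 1).le

theorem FM' (h : Hyp w y) {t : Fin q} (ht : Top w t) {Λ : ℝ[X]} (hΛ : NN Λ)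
    (J : List ℕ) (hJ : 2 ≤ J.length) :
    Pw w y (J.sum + J.length + 2) * (w t * hat w Λ t + E w (hat w Λ)) ≤
      Pw w y 1 * (w t * hat w Λ t * sa w y J +
        E w (fun i => hat w Λ i * sf w y J i)) := by
  cases J with
  | nil => simp at hJ
  | cons a L =>
    rcases List.eq_nil_or_concat L with rfl | ⟨M, c, rfl⟩
    · simp at hJ
    · have n : (a :: (M ++ [c])).sum + (a :: (M ++ [c])).length + 2 =
          a + M.sum + M.length + c + 4 := by
        simp only [List.sum_cons, List.length_cons, List.sum_append, List.length_append,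
          List.sum_nil, List.length_nil]; ring
      rw [List.concat_eq_append, n]
      exact FM h ht hΛ a c M

/-! ### strict monotonicity of the message under merging -/

theorem hat_R_pos (h : Hyp w y) (J : List ℕ) (i : Fin q) : 0 < hat w (st w y (R J)).p i := by
  induction J generalizing i with
  | nil =>
    have : (st w y (R [])).p = 1 := rfl
    rw [this, hat_one']
    exact one_pos
  | cons j J ih =>
    rw [st_R_cons]
    simp only
    rw [mul_comm, hat_mul]
    have hp : NN (st w y (R J)).p := (st_nonneg h.nn h.hy.le _).2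
    have h1 : ∀ k, y * l w y j ≤ hat w (psi w y (j + 1)) k := by
      intro k
      rw [psi_succ, map_add, Pi.add_apply, hat_C, hat_X_mul]
      have := K'_nonneg h.nn (f := hat w (psi w y j)) (fun i => (psi_pos h j i).le) k
      linarith
    have h2 := aeval_mono h.nn hp (f := fun _ => y * l w y j) (g := hat w (psi w y (j + 1))) h1 i
    rw [aeval_const] at h2
    exact lt_of_lt_of_le (mul_pos (mul_pos h.hy (l_pos h j)) (ih i)) h2

theorem sa_merge_eq (a b : ℕ) (J : List ℕ) :
    sa w y (a :: b :: J) = sa w y ((a + b + 1) :: J) -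
      y * E w (fun k => (w k - y) * ch w y (a + 1) k * ch w y (b + 1) k *
        hat w (st w y (R J)).p k) := by
  have h1 := Z_merge w y 0 1 a b (R J)
  have e : ∀ F : B, Z w y 0 1 F = L w (st w y F).p := by
    intro F
    rw [Z]
    simp only [mul_zero, zero_mul, one_mul, zero_add]
  rw [e, e] at h1
  have e2 : R (a :: b :: J) = .cons (.path a) (.cons (.path b) (R J)) := rfl
  have e3 : R ((a + b + 1) :: J) = .cons (.path (a + b + 1)) (R J) := rfl
  rw [sa, sa, e2, e3, h1, sub_eq_add_neg, ← mul_neg]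
  congr 2
  simp only [E, ← sum_neg_distrib, zero_mul, one_mul, zero_sub]
  exact sum_congr rfl fun i _ => by ring

theorem sa_merge_lt (h : Hyp w y) (a b : ℕ) (J : List ℕ) :
    sa w y (a :: b :: J) < sa w y ((a + b + 1) :: J) := by
  rw [sa_merge_eq]
  refine sub_lt_self _ (mul_pos h.hy (E_pos h fun k => ?_))
  exact mul_pos (X_pos h a b k) (hat_R_pos h J k)

/-! ### Theorem G -/

/-- a spider with at least three legs which is not bad may be replaced anywhere -/
theorem goodG_three (h : Hyp w y) (J : List ℕ) (hJ : 3 ≤ J.length) (hb : ¬ Bad w y J) :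
    Good w y (.cons (R J) .nil) := by
  match J, hJ with
  | a :: b :: j :: J, _ =>
  obtain ⟨t, ht⟩ := exists_top h
  intro A Λ k hA hΛ h1 h2
  set M := (a + b + 1) :: j :: J with hM
  set N := (a :: b :: j :: J).sum + (a :: b :: j :: J).length + 1 with hN
  have hMN : M.sum + M.length + 1 = N := by
    rw [hM, hN]
    simp only [List.sum_cons, List.length_cons]
    ring
  have hsize : (B.cons (R (a :: b :: j :: J)) .nil).size = N := by
    simp only [B.size, size_R]; omega
  have hsizeM : (B.cons (R M) .nil).size = N := by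
    simp only [B.size, size_R]; omega
  have hZ0 := h1 .nil (by rw [hsize]; simp only [B.size]; omega)
  have hZM := h2 (.cons (R M) .nil) (by
    refine ⟨hsizeM.trans hsize.symm, Or.inl ?_⟩
    simp only [lv, lv_R, hM, List.length_cons]
    omega)
  rw [hsizeM, Z_sp] at hZM
  rw [B.size, add_zero, Z_nil] at hZ0
  rw [hsize, Z_sp]
  -- the ingredients
  have hR := R_merge h ht hΛ (A := w t * hat w Λ t / y)
    (by rw [mul_div_cancel₀ _ h.hy.ne']) a b j J
  rw [Z_sp, Z_sp, mul_div_cancel₀ _ h.hy.ne', ← hM] at hR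
  have hFM := FM' h ht hΛ M (by rw [hM]; simp)
  rw [show M.sum + M.length + 2 = N + 1 by omega] at hFM
  have hlt : sa w y (a :: b :: j :: J) < sa w y M := sa_merge_lt h a b (j :: J)
  have hr := Pw_ratio h k N
  rw [show 1 + N = N + 1 by ring] at hr
  rw [Bad, not_lt, show (a :: b :: j :: J).sum + (a :: b :: j :: J).length + 2 = N + 1 by
    omega] at hb
  have p1 := Pw_pos h 1
  have hr0 := (Pw_pos h (N + 1)).le
  set r := Pw w y (N + 1)
  set P1 := Pw w y 1
  set sJ := sa w y (a :: b :: j :: J)
  set sM := sa w y M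
  set fJ := E w (fun i => hat w Λ i * sf w y (a :: b :: j :: J) i)
  set fM := E w (fun i => hat w Λ i * sf w y M i)
  set EG := E w (hat w Λ)
  set TG := w t * hat w Λ t
  set P := Pw w y (k + N)
  set P0 := Pw w y k
  have c0 : 0 < sM * P1 - r := by
    have := mul_lt_mul_of_pos_right hlt p1
    linarith
  have c1 : 0 ≤ sJ * P1 - r := by linarith
  have c2 : 0 < sM - sJ := by linarith
  refine le_of_mul_le_mul_left ?_ c0
  -- `(sM P1 - r) Z_J ≥ (sJ P1 - r) Z_M + (sM - sJ) r Z_0`
  have m1 := mul_le_mul_of_nonneg_left hR c0.le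
  have m2 := mul_le_mul_of_nonneg_left hFM c2.le
  have m3 := mul_le_mul_of_nonneg_left hZM c1
  have m4 := mul_le_mul_of_nonneg_left hZ0 (mul_nonneg hr0 c2.le)
  have m5 := mul_le_mul_of_nonneg_left hr c2.le
  nlinarith

end Pool.Agent.Helper70.SW
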