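import Pool.Agent.Helper31.SW.MB2
import Pool.Agent.Helper4.SW.Two

/-!
S-world: the inequality (J1) for the pair {merge two legs | move the leg of size two to the end of
a leg}.
-/

set_option autoImplicit false

namespace Pool.Agent.Helper70.SW

open Pool.Agent.Helper4.SW
open Pool.Agent.Helper31.SW
open Pool.Agent.Helper6.HL hiding X
open Finset Polynomial

/-- the polynomial inequality, in nonnegative variables -/
theorem J1_aux {y p m c : ℝ} (hy : 0 ≤ y) (hp : 0 ≤ p) (hm : 0 ≤ m) (hc : 0 ≤ c) :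
    y * ((y + p + m + y + c) - y) * (y + p + m) * p * (((y + p + m + y + c) + (y + p + m)) -
      (y + p)) * ((y + p + m + y + c) + (y + p + m)) ^ 2 ≤
    (y * ((y + p + m + y + c) + (y + p + m)) + (y + p + m) * ((y + p + m + y + c) + y)) *
      (p ^ 2 * (((y + p + m + y + c) + (y + p + m)) - (y + p)) *
        ((y + p + m + y + c) + (y + p + m)) ^ 2 / 2 +
      3 / 16 * (y + p + m + y + c) * (y + p) * ((y + p + m) + y - (y + p)) *
        ((y + p + m + y + c) - (y + p)) ^ 2) +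
    (y + p) * ((y + p + m + y + c) - y) ^ 2 * (y + p + m) ^ 3 * ((y + p + m + y + c) + y) := by
  rw [← sub_nonneg]
  have e : (y * ((y + p + m + y + c) + (y + p + m)) + (y + p + m) * ((y + p + m + y + c) + y)) *
      (p ^ 2 * (((y + p + m + y + c) + (y + p + m)) - (y + p)) *
        ((y + p + m + y + c) + (y + p + m)) ^ 2 / 2 +
      3 / 16 * (y + p + m + y + c) * (y + p) * ((y + p + m) + y - (y + p)) *
        ((y + p + m + y + c) - (y + p)) ^ 2) +
    (y + p) * ((y + p + m + y + c) - y) ^ 2 * (y + p + m) ^ 3 * ((y + p + m + y + c) + y) -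
    y * ((y + p + m + y + c) - y) * (y + p + m) * p * (((y + p + m + y + c) + (y + p + m)) -
      (y + p)) * ((y + p + m + y + c) + (y + p + m)) ^ 2 =
      (1 / 16 * (c ^ 3 * y ^ 2 * (p - y) ^ 2) + 3 / 16 * (c ^ 4 * y * (p - 7 / 6 * y) ^ 2) +
        1 / 8 * (c ^ 4 * m * (p - y) ^ 2)) +
      ((433/8:ℝ)*(c*m*p*y^4) + (1481/8:ℝ)*(c*m*p^2*y^3) + (679/2:ℝ)*(c*m*p^3*y^2)
       + (855/4:ℝ)*(c*m*p^4*y) + (43:ℝ)*(c*m*p^5) + (217/4:ℝ)*(c*m*y^5) + (651/8:ℝ)*(c*m^2*p*y^3)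
       + (1789/8:ℝ)*(c*m^2*p^2*y^2) + (1031/4:ℝ)*(c*m^2*p^3*y) + (627/8:ℝ)*(c*m^2*p^4)
       + (693/8:ℝ)*(c*m^2*y^4) + (481/8:ℝ)*(c*m^3*p*y^2) + (991/8:ℝ)*(c*m^3*p^2*y)
       + (135/2:ℝ)*(c*m^3*p^3) + (271/4:ℝ)*(c*m^3*y^3) + (181/8:ℝ)*(c*m^4*p*y)
       + (215/8:ℝ)*(c*m^4*p^2) + (103/4:ℝ)*(c*m^4*y^2) + (15/4:ℝ)*(c*m^5*p) + (15/4:ℝ)*(c*m^5*y)
       + (14:ℝ)*(c*p*y^5) + (59:ℝ)*(c*p^2*y^4) + (611/4:ℝ)*(c*p^3*y^3) + (1187/8:ℝ)*(c*p^4*y^2)
       + (61:ℝ)*(c*p^5*y) + (9:ℝ)*(c*p^6) + (107/8:ℝ)*(c*y^6) + (201/8:ℝ)*(c^2*m*p*y^3)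
       + (78:ℝ)*(c^2*m*p^2*y^2) + (415/4:ℝ)*(c^2*m*p^3*y) + (547/16:ℝ)*(c^2*m*p^4)
       + (579/16:ℝ)*(c^2*m*y^4) + (503/16:ℝ)*(c^2*m^2*p*y^2) + (1171/16:ℝ)*(c^2*m^2*p^2*y)
       + (701/16:ℝ)*(c^2*m^2*p^3) + (681/16:ℝ)*(c^2*m^2*y^3) + (145/8:ℝ)*(c^2*m^3*p*y)
       + (93/4:ℝ)*(c^2*m^3*p^2) + (175/8:ℝ)*(c^2*m^3*y^2) + (33/8:ℝ)*(c^2*m^4*p)
       + (33/8:ℝ)*(c^2*m^4*y) + (123/16:ℝ)*(c^2*p*y^4) + (457/16:ℝ)*(c^2*p^2*y^3)
       + (1023/16:ℝ)*(c^2*p^3*y^2) + (707/16:ℝ)*(c^2*p^4*y) + (19/2:ℝ)*(c^2*p^5)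
       + (91/8:ℝ)*(c^2*y^5) + (2:ℝ)*(c^3*m*p*y^2) + (51/4:ℝ)*(c^3*m*p^2*y) + (79/8:ℝ)*(c^3*m*p^3)
       + (69/8:ℝ)*(c^3*m*y^3) + (31/8:ℝ)*(c^3*m^2*p*y) + (61/8:ℝ)*(c^3*m^2*p^2)
       + (27/4:ℝ)*(c^3*m^2*y^2) + (7/4:ℝ)*(c^3*m^3*p) + (7/4:ℝ)*(c^3*m^3*y)
       + (73/16:ℝ)*(c^3*p^2*y^2) + (83/8:ℝ)*(c^3*p^3*y) + (4:ℝ)*(c^3*p^4) + (57/16:ℝ)*(c^3*y^4)
       + (9/16:ℝ)*(c^4*m*p^2) + (7/16:ℝ)*(c^4*m*y^2) + (3/16:ℝ)*(c^4*m^2*p) + (3/16:ℝ)*(c^4*m^2*y)
       + (1/2:ℝ)*(c^4*p^3) + (23/192:ℝ)*(c^4*y^3) + (125/4:ℝ)*(m*p*y^5) + (2403/16:ℝ)*(m*p^2*y^4)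
       + (2853/8:ℝ)*(m*p^3*y^3) + (5225/16:ℝ)*(m*p^4*y^2) + (128:ℝ)*(m*p^5*y) + (18:ℝ)*(m*p^6)
       + (209/8:ℝ)*(m*y^6) + (945/16:ℝ)*(m^2*p*y^4) + (1775/8:ℝ)*(m^2*p^2*y^3)
       + (1517/4:ℝ)*(m^2*p^3*y^2) + (3609/16:ℝ)*(m^2*p^4*y) + (43:ℝ)*(m^2*p^5)
       + (427/8:ℝ)*(m^2*y^5) + (457/8:ℝ)*(m^3*p*y^3) + (665/4:ℝ)*(m^3*p^2*y^2)
       + (1451/8:ℝ)*(m^3*p^3*y) + (835/16:ℝ)*(m^3*p^4) + (913/16:ℝ)*(m^3*y^4)
       + (241/8:ℝ)*(m^4*p*y^2) + (257/4:ℝ)*(m^4*p^2*y) + (537/16:ℝ)*(m^4*p^3)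
       + (535/16:ℝ)*(m^4*y^3) + (69/8:ℝ)*(m^5*p*y) + (169/16:ℝ)*(m^5*p^2) + (161/16:ℝ)*(m^5*y^2)
       + (19/16:ℝ)*(m^6*p) + (19/16:ℝ)*(m^6*y) + (53/8:ℝ)*(p*y^6) + (327/8:ℝ)*(p^2*y^5)
       + (2011/16:ℝ)*(p^3*y^4) + (2499/16:ℝ)*(p^4*y^3) + (187/2:ℝ)*(p^5*y^2) + (27:ℝ)*(p^6*y)
       + (3:ℝ)*(p^7) + (21/4:ℝ)*(y^7)) := by
    ring
  rw [e]
  positivity

theorem J1_poly {y z s t : ℝ} (hy : 0 ≤ y) (hz : y ≤ z) (hs : z ≤ s) (ht : s + y ≤ t)
    (h1 : t + s = 1) :
    y * (t - y) * s * (z - y) * (1 - z) ≤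
      (y + s * (t + y)) * ((z - y) ^ 2 * (1 - z) / 2 +
        3 / 16 * t * z * (s + y - z) * (t - z) ^ 2) + z * (t - y) ^ 2 * s ^ 3 * (t + y) := by
  have h := J1_aux hy (sub_nonneg.2 hz) (sub_nonneg.2 hs) (sub_nonneg.2 ht)
  have e1 : y + (z - y) = z := by ring
  have e2 : z + (s - z) = s := by ring
  have e3 : s + y + (t - (s + y)) = t := by ring
  rw [e1, e2, e3, h1, one_pow, mul_one, mul_one, mul_one] at h
  linarith

theorem g_ge {y z s t lam : ℝ} (hy : 0 ≤ y) (hz : y ≤ z) (hs : z ≤ s) (ht : s + y ≤ t)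
    (h1 : t + s = 1) (hl : s + y ≤ lam) (hl1 : lam ≤ 1) :
    4 * ((lam + t) * (lam + z)) ≤ 9 * (lam + y) := by
  have hts : t = 1 - s := by linarith
  have a1 : 0 ≤ 9 * (1 + y) - 4 * ((1 + t) * (1 + z)) := by
    have b1 : (1 + t) * (1 + z) ≤ (1 + t) * (1 + s) :=
      mul_le_mul_of_nonneg_left (by linarith) (by linarith)
    rw [hts] at b1 ⊢
    nlinarith [sq_nonneg (s - 1 / 2)]
  have a2 : 0 ≤ 9 * (s + y + y) - 4 * ((s + y + t) * (s + y + z)) := by
    have b1 : (s + y + t) * (s + y + z) ≤ (s + y + t) * (s + y + s) :=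
      mul_le_mul_of_nonneg_left (by linarith) (by linarith)
    have b2 : (s + y + t) * (s + y + s) = (1 + y) * (2 * s + y) := by rw [hts]; ring
    rw [b2] at b1
    have b3 : s ≤ 1 / 2 := by linarith
    have b4 : y ≤ 1 / 3 := by linarith
    nlinarith [mul_nonneg hy (sub_nonneg.2 b3), mul_nonneg hy (sub_nonneg.2 b4)]
  have a3 : 0 ≤ (lam - (s + y)) * (1 - lam) := mul_nonneg (by linarith) (by linarith)
  have a4 : 0 < 1 - (s + y) := by linarith
  have key : (1 - (s + y)) * (9 * (lam + y) - 4 * ((lam + t) * (lam + z))) =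
      (1 - lam) * (9 * (s + y + y) - 4 * ((s + y + t) * (s + y + z))) +
      (lam - (s + y)) * (9 * (1 + y) - 4 * ((1 + t) * (1 + z))) +
      4 * (1 - (s + y)) * ((lam - (s + y)) * (1 - lam)) := by ring
  have a5 : 0 ≤ (1 - (s + y)) * (9 * (lam + y) - 4 * ((lam + t) * (lam + z))) := by
    rw [key]
    have c1 := mul_nonneg (sub_nonneg.2 hl1) a2
    have c2 := mul_nonneg (sub_nonneg.2 hl) a1
    have c3 := mul_nonneg (mul_nonneg (by norm_num : (0:ℝ) ≤ 4) a4.le) a3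
    linarith
  have := nonneg_of_mul_nonneg_right a5 a4
  linarith

variable {q : ℕ} {w : Fin q → ℝ} {y : ℝ}

/-- differences of the message of an odd leg -/
theorem dpsi_ge (h : Hyp w y) {t j : Fin q} (ht : Pool.Agent.Helper31.SW.Top w t) (hj : j ≠ t)
    {k : ℕ} (hk : Odd k) :
    4 * ((w t - w j) * l w y k) ≤ 9 * (hat w (psi w y k) j - hat w (psi w y k) t) := by
  obtain ⟨lam, hp⟩ := exists_perA h
  have hy := h.hy
  have hl0 : 0 < lam := hp.1
  have hl1 := lam_le_one h hp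
  have hlam := Pool.Agent.Helper4.SW.lam_ge h ht hp
  have hB := top_half h ht
  have hs := le_compl h hj
  have hwj := h.lt j
  have hg := g_ge (t := w t) (s := 1 - w t) hy.le hwj.le hs (by linarith) (by ring) hlam hl1
  have h1 := ((lim_alt h hp ht k).1 hk).1 j
  have hl := Pool.Agent.Helper4.SW.l_pos h k
  have h2 : l w y k ≤ (lam + w t) * ch w y k t := by
    have h3 := T_lim_odd h hp ht hk
    rw [tau, N, ← mul_div_assoc, le_div_iff₀ hl] at h3
    have h4 : w t * l w y k ≤ w t * ((lam + w t) * ch w y k t) := by linarith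
    exact le_of_mul_le_mul_left h4 (h.pos t)
  have hd : hat w (psi w y k) j - hat w (psi w y k) t =
      (w t - y) * ch w y k t - (w j - y) * ch w y k j := by
    rw [hat_psi, hat_psi]; ring
  rw [hd]
  set ct := ch w y k t
  set cj := ch w y k j
  have hP : 0 < lam + w j := by linarith [h.pos j]
  have hQ : 0 < lam + w t := by linarith [h.pos t]
  have hd0 : 0 ≤ w t - w j := sub_nonneg.2 (ht j)
  refine le_of_mul_le_mul_left ?_ (mul_pos hQ hP)
  have m1 : (lam + w j) * ((w t - y) * ct - (w j - y) * cj) ≥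
      (lam + y) * (w t - w j) * ct := by
    have := mul_le_mul_of_nonneg_left h1 (sub_nonneg.2 hwj.le)
    nlinarith
  have m2 := mul_le_mul_of_nonneg_left m1 (mul_nonneg (by norm_num : (0:ℝ) ≤ 9) hQ.le)
  have m3 := mul_le_mul_of_nonneg_left h2 (mul_nonneg (mul_nonneg (by norm_num : (0:ℝ) ≤ 9)
    (show 0 ≤ lam + y by linarith)) hd0)
  have m4 := mul_le_mul_of_nonneg_right hg (mul_nonneg hd0 hl.le)
  nlinarith

/-- lower bound of the trilinear form by the pairs with one fixed colour -/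
theorem half_sum_ge (A : Fin q → Fin q → ℝ) (hA : ∀ c d, 0 ≤ A c d) (hs : ∀ c d, A c d = A d c)
    (t : Fin q) : ∑ j ∈ univ.erase t, A t j ≤ (∑ c, ∑ d, A c d) / 2 := by
  rw [← add_sum_erase univ (fun c => ∑ d, A c d) (mem_univ t)]
  have h1 : ∑ j ∈ univ.erase t, A t j ≤ ∑ d, A t d :=
    sum_le_sum_of_subset_of_nonneg (erase_subset _ _) fun i _ _ => hA t i
  have h2 : ∑ j ∈ univ.erase t, A t j ≤ ∑ c ∈ univ.erase t, ∑ d, A c d := by
    refine sum_le_sum fun j _ => ?_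
    rw [hs t j]
    exact single_le_sum (f := fun d => A j d) (fun i _ => hA j i) (mem_univ t)
  linarith

/-- (J1) -/
theorem MB_J1 (h : Hyp w y) {a b : ℕ} (ha : Odd a) (hb : Odd b) {t : Fin q}
    (ht : Pool.Agent.Helper31.SW.Top w t) :
    y * l w y 2 * l w y b * ∑ i, (w i - y) * ch w y 2 i * ch w y (a + 1) i ≤
      hat w (psi w y 2) t * E w (hat w (psi w y b * omP w y a 2)) := by
  have hy := h.hy
  have hB := top_half h ht
  have hX0 := h.pos t
  have hu0 : 0 < w t - y := sub_pos.2 (h.lt t)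
  have hs0 : 0 < 1 - w t := by linarith [w_lt_one h t]
  set κ : Fin q → ℝ := fun i => (w i - y) * ch w y 2 i with hκ
  have hκe : ∀ i, κ i = (w i - y) * (1 - w i) := fun i => by rw [hκ]; simp only [ch_two h]
  have hκ0 : ∀ i, 0 ≤ κ i := fun i => by
    rw [hκe]
    exact mul_nonneg (sub_pos.2 (h.lt i)).le (by linarith [w_lt_one h i])
  set la := l w y a with hla
  set lb := l w y b with hlb
  have hla0 : 0 < la := Pool.Agent.Helper4.SW.l_pos h a
  have hlb0 : 0 < lb := Pool.Agent.Helper4.SW.l_pos h b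
  set L := l w y 2 with hL
  set s := 1 - w t with hs
  have hL0 : 2 * s * w t + y ≤ L := by
    rw [hL, l_two h]
    have := Eww_le h t
    rw [hs]
    nlinarith
  -- the messages
  set e : Fin q → ℝ := fun i => ch w y (a + 1) i with he
  set g : Fin q → ℝ := fun i => ch w y (b + 1) i with hg
  have he0 : ∀ i, 0 ≤ e i := fun i => (ch_pos h a i).le
  have hg0 : ∀ i, 0 ≤ g i := fun i => (ch_pos h b i).le
  have hele : ∀ i, e i ≤ la := fun i => by
    rw [he]
    simp only [ch_succ w y a]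
    have := mul_nonneg (h.nn i) ((Cone.ch h.nn hy.le a).nn i)
    linarith
  have htop : ∀ k : ℕ, Odd k → s * l w y k ≤ ch w y (k + 1) t := by
    intro k hk
    obtain ⟨j, rfl⟩ : ∃ j, k = 1 + j := ⟨k - 1, by obtain ⟨r, hr⟩ := hk; omega⟩
    have h1 := T_odd h ht (show Odd 1 by decide) j
    rw [tau_one h, tau, N, div_le_iff₀ (Pool.Agent.Helper4.SW.l_pos h _)] at h1
    rw [ch_succ w y (1 + j), hs]
    linarith
  have hmid : ∀ k : ℕ, ∀ j, j ≠ t → l w y k / 2 ≤ ch w y (k + 1) j := by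
    intro k j hj
    have h1 := tau_half h k hj (ht j)
    rw [tau, N] at h1
    have hl := Pool.Agent.Helper4.SW.l_pos h k
    have h2 : 2 * (w j * ch w y k j) ≤ l w y k := by
      have h3 : 2 * (w j * ch w y k j / l w y k) * l w y k ≤ 1 * l w y k :=
        mul_le_mul_of_nonneg_right h1 hl.le
      rw [mul_assoc, div_mul_cancel₀ _ hl.ne', one_mul] at h3
      exact h3
    rw [ch_succ w y k]
    linarith
  -- `psi_2` at the top
  have hψt : hat w (psi w y 2) t = L - κ t := by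
    rw [hat_psi]
  set Lq := L - κ t with hLq
  have hκt : κ t = (w t - y) * s := hκe t
  have hLq0 : y + s * (w t + y) ≤ Lq := by
    rw [hLq, hκt]
    rw [hs] at *
    nlinarith
  have hLqpos : 0 < Lq := lt_of_lt_of_le (by positivity) hLq0
  -- the average of `W`
  have hW : E w (hat w (psi w y b * omP w y a 2)) = E w (fun i => κ i * hat w (psi w y b) i * e i) +
      (∑ c, ∑ d, w c * w d * ((hat w (psi w y a) c - hat w (psi w y a) d) * (κ c - κ d) *
        (hat w (psi w y b) c - hat w (psi w y b) d) / (w c - w d))) / 2 := by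
    have h1 : E w (hat w (psi w y b * omP w y a 2)) =
        E w (fun i => star w (hat w (psi w y a)) κ i * hat w (psi w y b) i) -
          y * E w (fun i => κ i * ch w y a i * hat w (psi w y b) i) := by
      rw [← L_def, L_mul, ← E_const_mul, ← E_sub]
      congr 1
      funext i
      rw [om_star h]
      ring
    rw [h1, E_star_mul, tri, add_sub_right_comm]
    congr 1
    rw [← E_const_mul, ← E_sub]
    congr 1
    funext i
    rw [hat_psi' w y a]
    rw [he]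
    ring
  set A : Fin q → Fin q → ℝ := fun c d => w c * w d * ((hat w (psi w y a) c -
    hat w (psi w y a) d) * (κ c - κ d) * (hat w (psi w y b) c - hat w (psi w y b) d) /
      (w c - w d)) with hA
  have hAs : ∀ c d, A c d = A d c := by
    intro c d
    rw [hA]
    simp only
    rcases eq_or_ne (w c) (w d) with hcd | hcd
    · simp [hcd]
    · have h4 : w c - w d ≠ 0 := sub_ne_zero.2 hcd
      have h5 : w d - w c ≠ 0 := sub_ne_zero.2 hcd.symm
      field_simp
      ring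
  have hψa := (Cone.hat h.nn (psi_NN h.nn hy.le a)).anti
  have hψb := (Cone.hat h.nn (psi_NN h.nn hy.le b)).anti
  have hκm : ∀ i j, w i ≤ w j → κ i ≤ κ j := fun i j hij =>
    (Cone.ch h.nn hy.le 2).sub_mono hy.le i j hij
  have hA1 : ∀ c d, w c ≤ w d → 0 ≤ A d c := by
    intro c d hcd
    rw [hA]
    simp only
    refine mul_nonneg (mul_nonneg (h.nn d) (h.nn c)) (div_nonneg ?_ (sub_nonneg.2 hcd))
    refine mul_nonneg_of_nonpos_of_nonpos (mul_nonpos_of_nonpos_of_nonneg ?_ ?_) ?_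
    · exact sub_nonpos.2 (hψa c d hcd)
    · exact sub_nonneg.2 (hκm c d hcd)
    · exact sub_nonpos.2 (hψb c d hcd)
  have hA0 : ∀ c d, 0 ≤ A c d := by
    intro c d
    rcases le_total (w c) (w d) with hcd | hcd
    · rw [hAs]; exact hA1 c d hcd
    · exact hA1 d c hcd
  have hpairs := half_sum_ge A hA0 hAs t
  have hAtj : ∀ j, j ≠ t → 16 / 81 * (w t * w j * ((s + y - w j) * (w t - w j) ^ 2)) * (la * lb) ≤
      A t j := by
    intro j hj
    have hlt : w j < w t := lt_of_le_of_ne (ht j) (fun he' => hj (h.inj he'))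
    have hd0 : 0 < w t - w j := sub_pos.2 hlt
    have hjs := le_compl h hj
    have d1 := dpsi_ge h ht hj ha
    have d2 := dpsi_ge h ht hj hb
    have hκd : κ t - κ j = (w t - w j) * (s + y - w j) := by
      rw [hκe, hκe, hs]; ring
    have e1 : A t j = w t * w j * ((s + y - w j) * ((hat w (psi w y a) j -
        hat w (psi w y a) t) * (hat w (psi w y b) j - hat w (psi w y b) t))) := by
      rw [hA]
      simp only
      rw [hκd]
      field_simp
      ring
    rw [e1]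
    set da := hat w (psi w y a) j - hat w (psi w y a) t
    set db := hat w (psi w y b) j - hat w (psi w y b) t
    have d3 : 4 / 9 * ((w t - w j) * la) * (4 / 9 * ((w t - w j) * lb)) ≤ da * db := by
      refine mul_le_mul (by linarith) (by linarith) ?_ ?_
      · have := mul_pos hd0 hlb0
        positivity
      · have := mul_pos hd0 hla0
        have d4 : 0 ≤ 9 * da := le_trans (by positivity) d1
        linarith
    have hsy : 0 ≤ s + y - w j := by linarith
    have d4 := mul_le_mul_of_nonneg_left d3 (mul_nonneg (mul_nonneg hX0.le (h.nn j)) hsy)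
    linarith
  -- the terms
  have hwψ : ∀ i, w i * hat w (psi w y b) i = y * lb + (w i - y) * g i := by
    intro i
    rw [hat_psi, hg]
    simp only [ch_succ w y b]
    ring
  have hE1 : E w (fun i => κ i * hat w (psi w y b) i * e i) =
      ∑ i, κ i * e i * (y * lb + (w i - y) * g i) := by
    simp only [E]
    refine sum_congr rfl fun i _ => ?_
    rw [← hwψ]
    ring
  have hS : ∑ i, (w i - y) * ch w y 2 i * ch w y (a + 1) i = ∑ i, κ i * e i := rfl
  rw [hψt, hW, hS, hE1]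
  -- reduce to the sum over `j ≠ t`
  have hmain : 0 ≤ ∑ i, κ i * e i * (Lq * ((w i - y) * g i) - y * κ t * lb) +
      Lq * ∑ j ∈ univ.erase t, A t j := by
    rw [← add_sum_erase univ _ (mem_univ t)]
    have hT : (w t - y) ^ 2 * s ^ 4 * (w t + y) * (la * lb) ≤
        κ t * e t * (Lq * ((w t - y) * g t) - y * κ t * lb) := by
      have g1 : s * lb ≤ g t := htop b hb
      have g2 : s * la ≤ e t := htop a ha
      have g3 : (w t - y) * s * lb * (s * (w t + y)) ≤
          Lq * ((w t - y) * g t) - y * κ t * lb := by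
        have g4 := mul_le_mul_of_nonneg_left g1 (mul_nonneg hLqpos.le hu0.le)
        have g5 := mul_le_mul_of_nonneg_right hLq0
          (mul_nonneg (mul_nonneg hu0.le hs0.le) hlb0.le)
        rw [hκt]
        nlinarith
      have g6 : 0 ≤ (w t - y) * s * lb * (s * (w t + y)) := by positivity
      have g7 : κ t * (s * la) ≤ κ t * e t := mul_le_mul_of_nonneg_left g2 (hκ0 t)
      have g8 := mul_le_mul g7 g3 g6 (mul_nonneg (hκ0 t) (he0 t))
      refine le_trans (le_of_eq ?_) g8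
      rw [hκt]
      ring
    have hsp : (w t - y) ^ 2 * s ^ 4 * (w t + y) * (la * lb) =
        ∑ j ∈ univ.erase t, w j * ((w t - y) ^ 2 * s ^ 3 * (w t + y) * (la * lb)) := by
      rw [← sum_mul, sum_erase h t, ← hs]
      ring
    rw [hsp] at hT
    rw [mul_sum]
    have hsum : 0 ≤ ∑ j ∈ univ.erase t, (w j * ((w t - y) ^ 2 * s ^ 3 * (w t + y) * (la * lb)) +
        (κ j * e j * (Lq * ((w j - y) * g j) - y * κ t * lb) + Lq * A t j)) := by
      refine sum_nonneg fun j hj => ?_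
      have hj' := ne_of_mem_erase hj
      have hwj := h.lt j
      have hjs := le_compl h hj'
      have hpoly := J1_poly hy.le hwj.le (show w j ≤ s from hjs) (show s + y ≤ w t by linarith)
        (show w t + s = 1 by rw [hs]; ring)
      have hgj := hmid b j hj'
      have a1 := hAtj j hj'
      have h1j : 0 < 1 - w j := by linarith [w_lt_one h j]
      have hu : 0 ≤ w j - y := (sub_pos.2 hwj).le
      have hsy : 0 ≤ s + y - w j := by linarith
      have hPj : 0 ≤ w t * w j * ((s + y - w j) * (w t - w j) ^ 2) :=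
        mul_nonneg (mul_nonneg hX0.le (h.nn j)) (mul_nonneg hsy (sq_nonneg _))
      have hlab : 0 < la * lb := mul_pos hla0 hlb0
      have a2 : Lq * (3 / 16 * (w t * w j * ((s + y - w j) * (w t - w j) ^ 2)) * (la * lb)) ≤
          Lq * A t j := by
        refine mul_le_mul_of_nonneg_left (le_trans ?_ a1) hLqpos.le
        have := mul_nonneg hPj hlab.le
        linarith
      -- the bracket
      have a3 : lb * (Lq * (w j - y) / 2 - y * ((w t - y) * s)) ≤
          Lq * ((w j - y) * g j) - y * κ t * lb := by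
        rw [hκt]
        have := mul_le_mul_of_nonneg_left hgj (mul_nonneg hLqpos.le hu)
        linarith
      have a4 : κ j * e j * (lb * (Lq * (w j - y) / 2 - y * ((w t - y) * s))) ≤
          κ j * e j * (Lq * ((w j - y) * g j) - y * κ t * lb) :=
        mul_le_mul_of_nonneg_left a3 (mul_nonneg (hκ0 j) (he0 j))
      have a5 : 0 ≤ w j * ((w t - y) ^ 2 * s ^ 3 * (w t + y) * (la * lb)) :=
        mul_nonneg (h.nn j) (by positivity)
      have a6 : 0 ≤ Lq * (3 / 16 * (w t * w j * ((s + y - w j) * (w t - w j) ^ 2)) *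
          (la * lb)) := mul_nonneg hLqpos.le (mul_nonneg (by linarith) hlab.le)
      rcases le_total 0 (Lq * (w j - y) / 2 - y * ((w t - y) * s)) with hbr | hbr
      · have a7 : 0 ≤ κ j * e j * (lb * (Lq * (w j - y) / 2 - y * ((w t - y) * s))) :=
          mul_nonneg (mul_nonneg (hκ0 j) (he0 j)) (mul_nonneg hlb0.le hbr)
        linarith
      · -- replace `e j` by `la`
        have a7 : κ j * la * (lb * (Lq * (w j - y) / 2 - y * ((w t - y) * s))) ≤
            κ j * e j * (lb * (Lq * (w j - y) / 2 - y * ((w t - y) * s))) := by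
          have b1 : lb * (Lq * (w j - y) / 2 - y * ((w t - y) * s)) ≤ 0 :=
            mul_nonpos_of_nonneg_of_nonpos hlb0.le hbr
          have b2 := mul_le_mul_of_nonneg_left (hele j) (hκ0 j)
          exact mul_le_mul_of_nonpos_right b2 b1
        -- the polynomial inequality with `Lq` in place of its lower bound
        have a8 : 0 ≤ (w j * ((w t - y) ^ 2 * s ^ 3 * (w t + y)) +
            ((w j - y) * (1 - w j)) * (Lq * (w j - y) / 2 - y * ((w t - y) * s)) +
            Lq * (3 / 16 * (w t * w j * ((s + y - w j) * (w t - w j) ^ 2)))) := by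
          have b1 : 0 ≤ (w j - y) ^ 2 * (1 - w j) / 2 +
              3 / 16 * w t * w j * (s + y - w j) * (w t - w j) ^ 2 := by
            have c1 : 0 ≤ (w j - y) ^ 2 * (1 - w j) / 2 := by positivity
            linarith
          have b2 := mul_le_mul_of_nonneg_right hLq0 b1
          linarith
        have a9 := mul_nonneg a8 hlab.le
        have hκj : κ j = (w j - y) * (1 - w j) := hκe j
        rw [hκj] at a4 a7 ⊢
        linarith
    rw [sum_add_distrib, sum_add_distrib] at hsum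
    linarith
  have hexp : ∑ i, κ i * e i * (Lq * ((w i - y) * g i) - y * κ t * lb) =
      Lq * ∑ i, κ i * e i * (y * lb + (w i - y) * g i) - y * L * lb * ∑ i, κ i * e i := by
    rw [mul_sum, mul_sum, ← sum_sub_distrib]
    refine sum_congr rfl fun i _ => ?_
    rw [hLq]
    ring
  rw [hexp] at hmain
  have hfin := mul_le_mul_of_nonneg_left hpairs hLqpos.le
  rw [mul_add]
  linarith

end Pool.Agent.Helper70.SW
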