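import Pool.Agent.Helper70.SW.G

/-!
S-world: Theorem Q.  Two spiders `w`, `k` at the same vertex: if the product of their messages at
the smallest part is at least that of one leg with the same number of vertices, then one of
{straighten `w` | replace both by one leg} is a domination.
-/

set_option autoImplicit false

namespace Pool.Agent.Helper70.SW

open Pool.Agent.Helper6.HL hiding X
open Pool.Agent.Helper4.SW
open Finset Polynomial

variable {q : ℕ} {w : Fin q → ℝ} {y : ℝ}

/-- Chebyshev's sum inequality -/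
theorem cheb_sum {f g : Fin q → ℝ} (hf : ∀ i j, w i ≤ w j → f i ≤ f j)
    (hg : ∀ i j, w i ≤ w j → g j ≤ g i) :
    (q : ℝ) * ∑ i, f i * g i ≤ (∑ i, f i) * ∑ i, g i := by
  have hc : ∑ i, ∑ j, ((f i - f j) * (g i - g j)) ≤ 0 := by
    refine sum_nonpos fun i _ => sum_nonpos fun j _ => ?_
    rcases le_total (w i) (w j) with hij | hij
    · exact mul_nonpos_of_nonpos_of_nonneg (sub_nonpos.2 (hf _ _ hij)) (sub_nonneg.2 (hg _ _ hij))
    · exact mul_nonpos_of_nonneg_of_nonpos (sub_nonneg.2 (hf _ _ hij)) (sub_nonpos.2 (hg _ _ hij))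
  have hm : ∀ i j, (f i - f j) * (g i - g j) = f i * g i - f i * g j - g i * f j + f j * g j := by
    intro i j; ring
  simp only [hm, sum_add_distrib, sum_sub_distrib, sum_const, card_univ,
    Fintype.card_fin, nsmul_eq_mul, ← mul_sum, ← sum_mul] at hc
  linarith [mul_comm (∑ i, f i) (∑ i, g i)]

theorem q_pos (h : Hyp w y) : 0 < (q : ℝ) := by
  have := h.two
  exact_mod_cast (by omega : 0 < q)

/-- the weights `x X` are increasing -/
theorem wX_mono (h : Hyp w y) (a b : ℕ) (i j : Fin q) (hij : w i ≤ w j) :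
    w i * ((w i - y) * ch w y a i * ch w y b i) ≤ w j * ((w j - y) * ch w y a j * ch w y b j) := by
  have h1 := (Cone.ch h.nn h.hy.le a).sub_mono h.hy.le i j hij
  have h2 := (Cone.ch h.nn h.hy.le b).mono i j hij
  have h3 := mul_le_mul h1 h2 (mul_nonneg (h.nn i) ((Cone.ch h.nn h.hy.le b).nn i))
    (mul_nonneg (sub_pos.2 (h.lt j)).le ((Cone.ch h.nn h.hy.le a).nn j))
  linarith

/-- average with respect to `x X` of a decreasing function is at most the plain mean -/
theorem EX_le (h : Hyp w y) (a b : ℕ) {g : Fin q → ℝ} (hg : ∀ i j, w i ≤ w j → g j ≤ g i) :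
    (q : ℝ) * E w (fun i => (w i - y) * ch w y a i * ch w y b i * g i) ≤
      E w (fun i => (w i - y) * ch w y a i * ch w y b i) * ∑ i, g i := by
  have := cheb_sum (w := w) (f := fun i => w i * ((w i - y) * ch w y a i * ch w y b i)) (g := g)
    (wX_mono h a b) hg
  have e : E w (fun i => (w i - y) * ch w y a i * ch w y b i * g i) =
      ∑ i, w i * ((w i - y) * ch w y a i * ch w y b i) * g i := by
    simp only [E]
    exact sum_congr rfl fun i _ => by ring
  rw [e]
  exact this

/-- one merge at the centre of a spider, in the context `(0, G)` -/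
theorem step_mean (h : Hyp w y) {Λ : ℝ[X]} (hΛ : NN Λ) (a b : ℕ) (J : List ℕ) :
    (sa w y ((a + b + 1) :: J) - sa w y (a :: b :: J)) * E w (hat w Λ) ≤
      q * (E w (fun i => hat w Λ i * sf w y (a :: b :: J) i) -
        E w (fun i => hat w Λ i * sf w y ((a + b + 1) :: J) i)) := by
  have e1 : (st w y B.nil).a = 1 := rfl
  have e2 : (st w y B.nil).p = 1 := rfl
  have z1 : ∀ J : List ℕ, E w (fun i => hat w Λ i * sf w y J i) =
      Z w y 0 Λ (.cons (R J) .nil) := by
    intro J
    rw [Z_sp]
    ring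
  have e3 : R (a :: b :: J) = .cons (.path a) (.cons (.path b) (R J)) := rfl
  have e4 : R ((a + b + 1) :: J) = .cons (.path (a + b + 1)) (R J) := rfl
  rw [z1, z1, Z_cons, Z_cons, e1, e2, mul_one, mul_one, mul_one, e3, e4, Z_merge,
    add_sub_cancel_left, sa_merge_eq]
  set α := (st w y (R J)).a with hα
  set p := (st w y (R J)).p with hp
  have hpNN : NN p := (st_nonneg h.nn h.hy.le _).2
  have hα0 : 0 ≤ α := (st_nonneg h.nn h.hy.le _).1
  set XX : Fin q → ℝ := fun k => (w k - y) * ch w y (a + 1) k * ch w y (b + 1) k with hXX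
  have hX0 : ∀ k, 0 < XX k := X_pos h a b
  have hEG : 0 ≤ E w (hat w Λ) := E_nonneg h.nn (Cone.hat h.nn hΛ).nn
  have hdef : ∀ k, hat w p k ≤ α := fun k => by linarith [R_defect h J k]
  -- the decreasing function
  set f := hat w (Λ * p) with hf
  have hfc : Cone w f := Cone.hat h.nn (hΛ.mul hpNN)
  have hfle : E w f ≤ α * E w (hat w Λ) := by
    rw [← E_const_mul]
    exact E_mono h.nn fun k => hat_mul_le_const h hΛ hdef k
  have hg := EX_le h (a + 1) (b + 1) (g := K' w f) (hfc.K' h.nn).anti
  have hsumK : ∑ i, K' w f i = (q - 1) * E w f := by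
    simp only [K'_apply, sum_sub_distrib, sum_const, card_univ, Fintype.card_fin, nsmul_eq_mul]
    have : ∑ i, w i * f i = E w f := rfl
    rw [this]; ring
  have hinner : ∀ k, L w Λ * α - hat w ((C (y * 0) + Polynomial.X * Λ) * p) k =
      L w Λ * α - K' w f k := by
    intro k
    rw [mul_zero, map_zero, zero_add, mul_assoc, hat_X_mul]
  have hLΛ : L w Λ = E w (hat w Λ) := rfl
  have e5 : E w (fun k => XX k * (L w Λ * α - hat w ((C (y * 0) + Polynomial.X * Λ) * p) k)) =
      L w Λ * α * E w XX - E w (fun k => XX k * K' w f k) := by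
    rw [← E_const_mul, ← E_sub]
    congr 1
    funext k
    rw [hinner]
    ring
  have e6 : (fun k => (w k - y) * ch w y (a + 1) k * ch w y (b + 1) k *
      (L w Λ * α - hat w ((C (y * 0) + Polynomial.X * Λ) * p) k)) =
      fun k => XX k * (L w Λ * α - hat w ((C (y * 0) + Polynomial.X * Λ) * p) k) := rfl
  have e7 : (fun k => (w k - y) * ch w y (a + 1) k * ch w y (b + 1) k * hat w p k) =
      fun k => XX k * hat w p k := rfl
  rw [e6, e7, e5, hLΛ]
  have hEX0 : 0 ≤ E w XX := E_nonneg h.nn fun k => (hX0 k).le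
  have hXp : E w (fun k => XX k * hat w p k) ≤ α * E w XX := by
    rw [← E_const_mul]
    refine E_mono h.nn fun k => ?_
    have := mul_le_mul_of_nonneg_left (hdef k) (hX0 k).le
    linarith
  have hg' : (q : ℝ) * E w (fun k => XX k * K' w f k) ≤ E w XX * ((q - 1) * E w f) := by
    rw [← hsumK]
    exact hg
  have hq1 : (0 : ℝ) ≤ q - 1 := by
    have : (2 : ℝ) ≤ q := by exact_mod_cast h.two
    linarith
  have m1 := mul_le_mul_of_nonneg_left hfle (mul_nonneg hEX0 hq1)
  have m2 := mul_le_mul_of_nonneg_right hXp hEG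
  have key : E w (fun k => XX k * hat w p k) * E w (hat w Λ) ≤
      q * (E w (hat w Λ) * α * E w XX - E w (fun k => XX k * K' w f k)) := by
    nlinarith
  have := mul_le_mul_of_nonneg_left key h.hy.le
  linarith

theorem sf_single (m : ℕ) : sf w y [m] = hat w (psi w y (m + 2)) := by
  funext i
  rw [sf, st_R_cons]
  have e1 : (st w y (R [])).p = 1 := rfl
  have e2 : (st w y (R [])).a = 1 := rfl
  simp only [e1, e2, mul_one]
  rw [show m + 2 = m + 1 + 1 by ring, psi_succ w y (m + 1), map_add, hat_C, hat_X_mul]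
  rfl

/-- straightening a spider in the context `(0, G)` -/
theorem straight_mean (h : Hyp w y) {Λ : ℝ[X]} (hΛ : NN Λ) (J : List ℕ) : ∀ a : ℕ,
    (l w y (a + J.sum + J.length + 2) - sa w y (a :: J)) * E w (hat w Λ) ≤
      q * (E w (fun i => hat w Λ i * sf w y (a :: J) i) -
        E w (fun i => hat w Λ i * hat w (psi w y (a + J.sum + J.length + 2)) i)) := by
  induction J with
  | nil =>
    intro a
    simp only [List.sum_nil, List.length_nil, add_zero]
    rw [sa_single, sf_single, sub_self, zero_mul, sub_self, mul_zero]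
  | cons b J ih =>
    intro a
    have h1 := step_mean h hΛ a b J
    have h2 := ih (a + b + 1)
    rw [show a + b + 1 + J.sum + J.length + 2 = a + (b :: J).sum + (b :: J).length + 2 by
      simp only [List.sum_cons, List.length_cons]; ring] at h2
    linarith

theorem straight_mean' (h : Hyp w y) {Λ : ℝ[X]} (hΛ : NN Λ) (J : List ℕ) (hJ : J ≠ []) :
    (l w y (J.sum + J.length + 1) - sa w y J) * E w (hat w Λ) ≤
      q * (E w (fun i => hat w Λ i * sf w y J i) -
        E w (fun i => hat w Λ i * hat w (psi w y (J.sum + J.length + 1)) i)) := by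
  cases J with
  | nil => exact absurd rfl hJ
  | cons a J =>
    have := straight_mean h hΛ J a
    rw [show a + J.sum + J.length + 2 = (a :: J).sum + (a :: J).length + 1 by
      simp only [List.sum_cons, List.length_cons]; ring] at this
    exact this

/-- `x f ≥ y a` for the message of a spider -/
theorem w_sf_ge (h : Hyp w y) (J : List ℕ) (i : Fin q) : y * sa w y J ≤ w i * sf w y J i := by
  rw [sf, sa, K'_apply, L_def]
  set p := (st w y (R J)).p
  have hpNN : NN p := (st_nonneg h.nn h.hy.le _).2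
  have h1 := R_defect h J i
  have h2 := le_E h.nn (Cone.hat h.nn hpNN).nn i
  have h3 := mul_nonneg (sub_pos.2 (h.lt i)).le (sub_nonneg.2 h2)
  have h4 := mul_nonneg (mul_nonneg (h.nn i) h.hy.le) h1
  nlinarith

/-- `x psi ≥ y l` -/
theorem w_psi_ge (h : Hyp w y) (n : ℕ) (i : Fin q) : y * l w y n ≤ w i * hat w (psi w y n) i := by
  have e : w i * hat w (psi w y n) i = y * l w y n + (w i - y) * ch w y (n + 1) i := by
    rw [hat_psi, ch_succ w y n]
    ring
  rw [e]
  have := mul_nonneg (sub_pos.2 (h.lt i)).le (ch_pos h n i).le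
  linarith

theorem sum_hat_le {c : ℝ} {f g : Fin q → ℝ} (hg : ∀ i, 0 ≤ g i)
    (hf : ∀ i, c ≤ w i * f i) : c * ∑ i, g i ≤ E w (fun i => g i * f i) := by
  rw [E, mul_sum]
  refine sum_le_sum fun i _ => ?_
  have := mul_le_mul_of_nonneg_right (hf i) (hg i)
  linarith

/-- the spiders, not merged: `sa J < l` -/
theorem sa_lt (h : Hyp w y) (a b : ℕ) (J : List ℕ) :
    sa w y (a :: b :: J) < l w y ((a :: b :: J).sum + (a :: b :: J).length + 1) := by
  refine lt_of_lt_of_le (sa_merge_lt h a b J) ?_
  refine (sa_le h (a + b + 1) J).trans (le_of_eq ?_)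
  congr 1
  simp only [List.sum_cons, List.length_cons]
  ring

theorem sa_lt' (h : Hyp w y) {J : List ℕ} (hJ : 2 ≤ J.length) :
    sa w y J < l w y (J.sum + J.length + 1) := by
  match J, hJ with
  | a :: b :: J', _ => exact sa_lt h a b J'

theorem st_sp (K : List ℕ) : st w y (.cons (R K) .nil) =
    ⟨sa w y K, Pool.Agent.Helper36.SW.fp w y K⟩ := by
  rw [st_one]
  rfl

/-- Theorem Q for two spiders -/
theorem Q_imp (h : Hyp w y) (J K : List ℕ) (hJ : 2 ≤ J.length) (hK : 2 ≤ K.length)
    (hQ : l w y (J.sum + J.length + 1 + (K.sum + K.length + 1)) ≤ sa w y J * sa w y K) :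
    Imp w y (.cons (R J) (.cons (R K) .nil)) := by
  intro A Λ hA hΛ
  set n := J.sum + J.length + 1 with hn
  set m := K.sum + K.length + 1 with hm
  have hy := h.hy
  have hq := q_pos h
  -- the three weights
  set fK := Pool.Agent.Helper36.SW.fp w y K with hfK
  have hfKN : NN fK := Pool.Agent.Helper36.SW.fp_NN h K
  have hfKh : hat w fK = sf w y K := Pool.Agent.Helper36.SW.hat_fp K
  have eT : B.cons (R J) (.cons (R K) .nil) = (B.cons (R J) .nil).app (.cons (R K) .nil) := rfl
  have eS : B.cons (.path (n - 1)) (.cons (R K) .nil) = (B.path n).app (.cons (R K) .nil) := by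
    have : B.path n = .cons (.path (n - 1)) .nil := by
      obtain ⟨r, hr⟩ : ∃ r, n = r + 1 := ⟨n - 1, by omega⟩
      rw [hr]; rfl
    rw [this]; rfl
  have hsK : 0 ≤ sa w y K := L_nonneg h.nn (st_nonneg h.nn hy.le (R K)).2
  have hΛf : NN (Λ * fK) := hΛ.mul hfKN
  have hΛp : NN (Λ * psi w y n) := hΛ.mul (psi_NN h.nn hy.le n)
  set G := hat w Λ with hG
  have hGc : Cone w G := Cone.hat h.nn hΛ
  set P := ∑ i, G i with hP
  have hP0 : 0 ≤ P := sum_nonneg fun i _ => hGc.nn i
  set aK := sa w y K with haK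
  set aJ := sa w y J with haJ
  set X : Fin q → ℝ := fun k => (w k - y) * ch w y n k * ch w y m k with hX
  have hm1 := (merge_id w y n m).1
  have hm2 := (merge_id w y n m).2
  -- `Z_T`, `Z_S`, `Z_Q`
  have zT : Z w y A Λ (.cons (R J) (.cons (R K) .nil)) =
      y * (A * aK) * aJ + E w (fun i => hat w (Λ * fK) i * sf w y J i) := by
    rw [eT, Z_app, st_sp]
    simp only
    rw [Z_sp]
  have zS : Z w y A Λ (.cons (.path (n - 1)) (.cons (R K) .nil)) =
      y * (A * aK) * l w y n + E w (fun i => hat w (Λ * fK) i * hat w (psi w y n) i) := by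
    rw [eS, Z_app, st_sp]
    simp only
    rw [Z, st_path]
    simp only
    rw [L_mul]
  have zQ : Z w y A Λ (B.path (n + m)) =
      y * A * l w y (n + m) + E w (fun i => G i * hat w (psi w y (n + m)) i) := by
    rw [Z, st_path]
    simp only
    rw [L_mul]
  -- the straightening of `w`
  have v1 := straight_mean' h hΛf J (by intro e; rw [e] at hJ; simp at hJ)
  rw [← hn] at v1
  -- the straightening of `k` with the leg `n` present
  have v2 := straight_mean' h hΛp K (by intro e; rw [e] at hK; simp at hK)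
  rw [← hm] at v2
  have c1 : E w (fun i => hat w (Λ * psi w y n) i * sf w y K i) =
      E w (fun i => hat w (Λ * fK) i * hat w (psi w y n) i) := by
    rw [← hfKh, ← L_mul, ← L_mul]
    congr 1
    ring
  have c2 : E w (fun i => hat w (Λ * psi w y n) i * hat w (psi w y m) i) =
      E w (fun i => G i * hat w (psi w y (n + m)) i) - y * E w (fun i => X i * G i) := by
    rw [← L_mul, mul_assoc, L_mul, ← E_const_mul, ← E_sub]
    congr 1
    funext i
    rw [hm1 i]
    ring
  have c3 : y * l w y n * P ≤ E w (hat w (Λ * psi w y n)) := by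
    rw [← L_def, L_mul]
    exact sum_hat_le hGc.nn (w_psi_ge h n)
  have c4 : y * aK * P ≤ E w (hat w (Λ * fK)) := by
    rw [← L_def, L_mul, hfKh]
    exact sum_hat_le hGc.nn (w_sf_ge h K)
  have c5 : (q : ℝ) * E w (fun i => X i * G i) ≤ E w X * P := EX_le h n m hGc.anti
  rw [c1, c2] at v2
  -- the numbers
  have hδJ : 0 < l w y n - aJ := sub_pos.2 (sa_lt' h hJ)
  have hδK : 0 < l w y m - aK := sub_pos.2 (sa_lt' h hK)
  have hln := l_pos h n
  have hlnm := l_pos h (n + m)
  have haK0 : 0 < aK := by
    rcases hsK.lt_or_eq with h0 | h0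
    · exact h0
    · rw [← h0, mul_zero] at hQ
      linarith
  set V := E w (fun i => hat w (Λ * fK) i * sf w y J i) -
    E w (fun i => hat w (Λ * fK) i * hat w (psi w y n) i) with hV
  set W := E w (fun i => hat w (Λ * fK) i * hat w (psi w y n) i) -
    E w (fun i => G i * hat w (psi w y (n + m)) i) with hW
  set b := l w y n * aK - l w y (n + m) with hb
  have hbge : (l w y n - aJ) * aK ≤ b := by
    rw [hb]; linarith
  have hb0 : 0 ≤ b := le_trans (mul_nonneg hδJ.le haK0.le) hbge
  have hV1 : (l w y n - aJ) * (y * aK * P) ≤ q * V :=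
    (mul_le_mul_of_nonneg_left c4 hδJ.le).trans v1
  have hW1 : - (y * b * P) ≤ q * W := by
    have d1 := mul_le_mul_of_nonneg_left c3 hδK.le
    have d2 : (q : ℝ) * W = q * (E w (fun i => hat w (Λ * fK) i * hat w (psi w y n) i) -
        (E w (fun i => G i * hat w (psi w y (n + m)) i) - y * E w (fun i => X i * G i))) -
        y * (q * E w (fun i => X i * G i)) := by rw [hW]; ring
    have d3 := mul_le_mul_of_nonneg_left c5 hy.le
    have d4 : b = E w X - l w y n * (l w y m - aK) := by
      rw [hb]
      have : l w y n * l w y m = l w y (n + m) + E w X := hm2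
      linarith
    rw [d2, d4]
    linarith
  by_contra hno
  push Not at hno
  have hTS := hno (.cons (.path (n - 1)) (.cons (R K) .nil)) (by
    refine ⟨?_, Or.inl ?_⟩
    · simp only [B.size, B.size_path, size_R]; omega
    · have h1 := lv_path (n - 1)
      have h2 := lv_R J
      simp only [lv, h2]
      omega)
  have hTQ := hno (B.path (n + m)) (by
    refine ⟨?_, Or.inl ?_⟩
    · simp only [B.size, B.size_path, size_R]; omega
    · have h1 := lv_path (n + m)
      have h2 := lv_R J
      have h3 := lv_R K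
      simp only [lv, h2, h3]
      omega)
  rw [zT, zS] at hTS
  rw [zT, zQ] at hTQ
  have hw1 : 0 < (l w y n - aJ) * aK := mul_pos hδJ haK0
  have hw2 : 0 ≤ b - (l w y n - aJ) * aK := sub_nonneg.2 hbge
  have t1 : -(y * A * ((l w y n - aJ) * aK)) + V < 0 := by
    rw [hV]; linarith
  have t2 : y * A * (b - (l w y n - aJ) * aK) + V + W < 0 := by
    rw [hV, hW, hb]; linarith
  have t3 := mul_neg_of_pos_of_neg hw1 t2
  have t4 := mul_nonpos_of_nonneg_of_nonpos hw2 t1.le
  have t5 : b * V + (l w y n - aJ) * aK * W < 0 := by linarith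
  have t6 := mul_le_mul_of_nonneg_left hV1 hb0
  have t7 := mul_le_mul_of_nonneg_left hW1 hw1.le
  have t8 : 0 ≤ q * (b * V + (l w y n - aJ) * aK * W) := by
    have e : q * (b * V + (l w y n - aJ) * aK * W) =
        b * (q * V) + (l w y n - aJ) * aK * (q * W) := by ring
    rw [e]
    linarith
  have t9 := nonneg_of_mul_nonneg_right t8 hq
  linarith

end Pool.Agent.Helper70.SW
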