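import Pool.Agent.Helper6.SW.MBPoly
import Pool.Agent.Helper31.SW.MB6
import Pool.Agent.Helper70.SW.MBJ1
import Pool.Agent.Helper70.SW.E2

/-!
S-world: class (v) and the frozen statement.
-/

set_option autoImplicit false

namespace Pool.Agent.Helper70.SW

open Pool.Agent.Helper6.HL hiding X
open Pool.Agent.Helper4.SW
open Pool.Agent.Helper6.MB
open Finset Polynomial

variable {q : ℕ} {w : Fin q → ℝ} {y : ℝ}

/-- class (v) -/
theorem good5 (h : Hyp w y) : Good5 w y := by
  obtain ⟨t, ht⟩ : ∃ t, Top w t := by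
    have : Nonempty (Fin q) := ⟨⟨0, by have := h.two; omega⟩⟩
    exact Finite.exists_max w
  refine Pool.Agent.Helper31.SW.class_v_of fun a b J ha ha2 hb => ?_
  refine Pool.Agent.Helper31.SW.leg_MB_of h ha ha2 hb J ht ?_ fun j hj => ?_
  · exact MB_J1 h ha.add_one hb.add_one ht
  · refine Pool.Agent.Helper31.SW.MB_Jj h ht ha.add_one (by omega) hb.add_one ?_ ?_ hj
    · intro y u r g c t hy hu hr hg hc ht htr hcs z s X S V e P R hz hs hX hS hV he hP hR
      exact ⟨mb_IV hy hu hr hg hc ht htr hcs hz hs hX hS hV he hP hR,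
        mb_IV0 hy hu hr hg hc ht htr hz hs hX hS hV he hR⟩
    · intro y u c hy hu hc s X S V e P R hs hX hS hV he hP hR
      exact ⟨mb_IV_one hy hu hc hs hX hS hV he hP hR,
        mb_IV0_one (P := P) hy hu hc hs hX hS hV he hP hR⟩

/-- the frozen statement `S09245` -/
theorem hoffman_london :
    ∀ r : ℕ, 3 ≤ r → ∀ (W : Type) [Fintype W] (p : W → Fin r), Function.Surjective p →
      ∀ (n : ℕ) (T : SimpleGraph (Fin n)), T.IsTree →
        Nat.card {f : Fin n → W // ∀ a b : Fin n, (SimpleGraph.pathGraph n).Adj a b → p (f a) ≠ p (f b)}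
          ≤ Nat.card {f : Fin n → W // ∀ a b : Fin n, T.Adj a b → p (f a) ≠ p (f b)} :=
  frozen_of_5 fun _ _ _ h => good5 h

end Pool.Agent.Helper70.SW
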