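import Pool.Agent.Helper70.SW.V

/-!
The Hoffman-London inequality with arbitrary nonnegative real weights.
-/

set_option autoImplicit false

namespace Pool.Agent.Helper70.SW

open Pool.Agent.Helper6.HL hiding X
open Pool.Agent.Helper4.SW
open Finset

/-- the S-world inequality -/
theorem swIneq : SWIneq := by
  intro q w y hinj hy hlt hone hhalf F
  rcases Nat.lt_or_ge q 2 with hq | hq
  · interval_cases q
    · simp at hone
    · rw [Fin.sum_univ_one] at hone
      exact SW_one w hone y hy.le (hone ▸ (hlt 0).le) F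
  have h : Hyp w y := ⟨hq, hinj, hy, hlt, hone, hhalf⟩
  have hD : GoodD w y := Pool.Agent.Helper66.SW.goodD_of h
    (fun c J h1 h2 h3 h4 h6 => Pool.Agent.Helper76.FU.class_i h c J h1 h2 h3 h4 h6) (good5 h)
  exact SW_of_good h (G2_good4 h hD (goodE1 h)) F

/-- counting version for any number of parts -/
theorem count_all (r : ℕ) (W : Type) [Fintype W] (p : W → Fin r) (hp : Function.Surjective p)
    (n : ℕ) (T : SimpleGraph (Fin n)) (hT : T.IsTree) :
    Nat.card {f : Fin n → W // ∀ a b : Fin n, (SimpleGraph.pathGraph n).Adj a b → p (f a) ≠ p (f b)}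
      ≤ Nat.card {f : Fin n → W // ∀ a b : Fin n, T.Adj a b → p (f a) ≠ p (f b)} := by
  by_cases hcap : ∀ i, 2 * Nat.card {x : W // p x = i} ≤ Fintype.card W
  · exact half_case r W p hcap n T hT
  obtain ⟨H, hH, hY⟩ := exists_B' (fun i => (Nat.card {x : W // p x = i} : ℝ)) T hT
  obtain rfl : H.size + 1 = n := hH
  have hpos : ∀ i, 0 < (Nat.card {x : W // p x = i} : ℝ) := fun i => by
    obtain ⟨x, hx⟩ := hp i
    have : Nonempty {x : W // p x = i} := ⟨⟨x, hx⟩⟩
    exact_mod_cast Nat.card_pos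
  have hhalf : ∃ i, ∑ l, (Nat.card {x : W // p x = l} : ℝ) <
      2 * (Nat.card {x : W // p x = i} : ℝ) := by
    rw [not_forall] at hcap
    obtain ⟨i, hi⟩ := hcap
    rw [not_le] at hi
    refine ⟨i, ?_⟩
    rw [card_eq_sum]
    exact_mod_cast hi
  have h1 := HL_of_SW swIneq r _ hpos hhalf H
  rw [← hY, ← Y_path'] at h1
  have e1 := card_eq_Y p (SimpleGraph.pathGraph (H.size + 1))
  have e2 := card_eq_Y p T
  have h2 : ((Nat.card {f : Fin (H.size + 1) → W // ∀ a b : Fin (H.size + 1),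
      (SimpleGraph.pathGraph (H.size + 1)).Adj a b → p (f a) ≠ p (f b)} : ℕ) : ℝ) ≤
      ((Nat.card {f : Fin (H.size + 1) → W // ∀ a b : Fin (H.size + 1),
        T.Adj a b → p (f a) ≠ p (f b)} : ℕ) : ℝ) := by
    rw [e1, e2]
    exact h1
  exact_mod_cast h2

/-- positive integer weights -/
theorem Y_nat {q n : ℕ} (T : SimpleGraph (Fin n)) (hT : T.IsTree) (m : Fin q → ℕ)
    (hm : ∀ i, 0 < m i) :
    Y (SimpleGraph.pathGraph n) (fun _ i => (m i : ℝ)) ≤ Y T (fun _ i => (m i : ℝ)) := by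
  have h := count_all q (Σ i : Fin q, Fin (m i)) Sigma.fst
    (fun i => ⟨⟨i, ⟨0, hm i⟩⟩, rfl⟩) n T hT
  have hc : ∀ i, Nat.card {x : Σ i : Fin q, Fin (m i) // x.1 = i} = m i := by
    intro i
    rw [Nat.card_congr (Equiv.sigmaSubtype (β := fun i => Fin (m i)) i), Nat.card_fin]
  have e1 := card_eq_Y (Sigma.fst : (Σ i : Fin q, Fin (m i)) → Fin q) (SimpleGraph.pathGraph n)
  have e2 := card_eq_Y (Sigma.fst : (Σ i : Fin q, Fin (m i)) → Fin q) T
  have h' : ((Nat.card {f : Fin n → Σ i : Fin q, Fin (m i) // ∀ a b : Fin n,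
      (SimpleGraph.pathGraph n).Adj a b → (f a).1 ≠ (f b).1} : ℕ) : ℝ) ≤
      ((Nat.card {f : Fin n → Σ i : Fin q, Fin (m i) // ∀ a b : Fin n,
        T.Adj a b → (f a).1 ≠ (f b).1} : ℕ) : ℝ) := by exact_mod_cast h
  rw [e1, e2] at h'
  simpa only [hc] using h'

open Classical in
theorem Y_scale {q n : ℕ} (G : SimpleGraph (Fin n)) (t : ℝ) (w : Fin q → ℝ) :
    Y G (fun _ i => t * w i) = t ^ n * Y G (fun _ i => w i) := by
  rw [Y, Y, mul_sum]
  refine sum_congr rfl fun c _ => ?_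
  split_ifs
  · rw [prod_mul_distrib, prod_const, card_univ, Fintype.card_fin]
  · rw [mul_zero]

open Classical in
theorem continuous_Y {q n : ℕ} (G : SimpleGraph (Fin n)) :
    Continuous fun w : Fin q → ℝ => Y G (fun _ i => w i) := by
  unfold Y
  refine continuous_finsetSum _ fun c _ => ?_
  split_ifs
  · exact continuous_finsetProd _ fun v _ => continuous_apply (c v)
  · exact continuous_const

/-- the Hoffman-London inequality for all nonnegative weights -/
theorem Y_le {q n : ℕ} (T : SimpleGraph (Fin n)) (hT : T.IsTree) (w : Fin q → ℝ)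
    (hw : ∀ i, 0 ≤ w i) :
    Y (SimpleGraph.pathGraph n) (fun _ i => w i) ≤ Y T (fun _ i => w i) := by
  -- rational approximations
  set m : ℕ → Fin q → ℕ := fun k i => ⌊((k + 1 : ℕ) : ℝ) * w i⌋₊ + 1 with hm
  set x : ℕ → Fin q → ℝ := fun k i => (1 / ((k + 1 : ℕ) : ℝ)) * (m k i : ℝ) with hx
  have hlim : Filter.Tendsto x Filter.atTop (nhds w) := by
    rw [tendsto_pi_nhds]
    intro i
    have h0 : Filter.Tendsto (fun k : ℕ => 1 / ((k : ℝ) + 1)) Filter.atTop (nhds 0) :=
      tendsto_one_div_add_atTop_nhds_zero_nat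
    refine tendsto_of_tendsto_of_tendsto_of_le_of_le (g := fun _ => w i)
      (h := fun k : ℕ => w i + 1 / ((k : ℝ) + 1)) tendsto_const_nhds ?_ (fun k => ?_) fun k => ?_
    · simpa using (tendsto_const_nhds (x := w i)).add h0
    · have hk : (0 : ℝ) < ((k + 1 : ℕ) : ℝ) := by positivity
      have h1 := Nat.lt_floor_add_one (((k + 1 : ℕ) : ℝ) * w i)
      show w i ≤ (1 / ((k + 1 : ℕ) : ℝ)) * ((⌊((k + 1 : ℕ) : ℝ) * w i⌋₊ + 1 : ℕ) : ℝ)
      rw [one_div, ← div_eq_inv_mul, le_div_iff₀ hk]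
      push_cast at h1 ⊢
      linarith
    · have hk : (0 : ℝ) < ((k + 1 : ℕ) : ℝ) := by positivity
      have h1 := Nat.floor_le (mul_nonneg hk.le (hw i))
      show (1 / ((k + 1 : ℕ) : ℝ)) * ((⌊((k + 1 : ℕ) : ℝ) * w i⌋₊ + 1 : ℕ) : ℝ) ≤
        w i + 1 / ((k : ℝ) + 1)
      have e : ((k + 1 : ℕ) : ℝ) = (k : ℝ) + 1 := by push_cast; ring
      rw [e] at hk h1 ⊢
      rw [one_div, ← div_eq_inv_mul, div_le_iff₀ hk]
      push_cast
      have : (w i + ((k : ℝ) + 1)⁻¹) * ((k : ℝ) + 1) = ((k : ℝ) + 1) * w i + 1 := by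
        field_simp
      rw [this]
      linarith
  have hle : ∀ k, Y (SimpleGraph.pathGraph n) (fun _ i => x k i) ≤ Y T (fun _ i => x k i) := by
    intro k
    have := Y_nat T hT (m k) fun i => Nat.succ_pos _
    simp only [hx]
    rw [Y_scale _ _ (fun i => (m k i : ℝ)), Y_scale _ _ (fun i => (m k i : ℝ))]
    exact mul_le_mul_of_nonneg_left this (by positivity)
  exact le_of_tendsto_of_tendsto' (((continuous_Y _).tendsto w).comp hlim)
    (((continuous_Y T).tendsto w).comp hlim) hle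

end Pool.Agent.Helper70.SW
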